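import Mathlib

set_option autoImplicit false

namespace Pool.Agent.H968Z.Klein

open unitInterval Set Metric Topology

/-- A mod 2 cocycle on paths: it vanishes on constant paths and on boundaries of squares. -/
structure Coc {Z : Type} [TopologicalSpace Z] (ω : (I → Z) → ZMod 2) : Prop where
  const : ∀ z, ω (fun _ => z) = 0
  sq : ∀ Φ : I → I → Z, Continuous (fun p : I × I => Φ p.1 p.2) →
    ω (Φ 0) + ω (Φ 1) = ω (fun t => Φ t 0) + ω (fun t => Φ t 1)

theorem Coc.comp {Z W : Type} [TopologicalSpace Z] [TopologicalSpace W] {ω : (I → Z) → ZMod 2}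
    (h : Coc ω) (g : W → Z) (hg : Continuous g) : Coc (fun γ : I → W => ω (g ∘ γ)) where
  const z := h.const (g z)
  sq Φ hΦ := h.sq (fun t s => g (Φ t s)) (hg.comp hΦ)

/-- Local exactness of a cocycle on a subset. -/
def LEx {Z : Type} [TopologicalSpace Z] (ω : (I → Z) → ZMod 2) (A : Set Z) : Prop :=
  ∀ x ∈ A, ∃ U : Set Z, IsOpen U ∧ x ∈ U ∧ ∃ ε : Z → ZMod 2,
    ∀ γ : I → Z, Continuous γ → (∀ s, γ s ∈ A ∩ U) → ω γ = ε (γ 0) + ε (γ 1)

lemma z2_move {a b c d : ZMod 2} (h : a + b = c + d) : a = (b + c) + d := by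
  revert a b c d; decide

lemma z2_move2 {a b c d e f : ZMod 2} (h : a + b = c + d) (h2 : b = e + f) :
    a = (e + c) + (f + d) := by
  revert a b c d e f; decide

/-- Radial push towards the unit sphere. -/
noncomputable def rad {n : ℕ} (t : I) (z : Fin n → ℝ) : Fin n → ℝ :=
  ((1 - (t : ℝ)) + (t : ℝ) * ‖z‖⁻¹) • z

lemma rad_zero {n : ℕ} (z : Fin n → ℝ) : rad 0 z = z := by simp [rad]

lemma rad_sphere {n : ℕ} (t : I) {z : Fin n → ℝ} (hz : ‖z‖ = 1) : rad t z = z := by
  simp [rad, hz]

lemma norm_rad {n : ℕ} (t : I) {z : Fin n → ℝ} (hz : 0 < ‖z‖) :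
    ‖rad t z‖ = (1 - (t : ℝ)) * ‖z‖ + t := by
  have h0 := t.2.1
  have h1 := t.2.2
  have : 0 ≤ (1 - (t : ℝ)) + (t : ℝ) * ‖z‖⁻¹ := by
    have : 0 ≤ (t : ℝ) * ‖z‖⁻¹ := by positivity
    linarith
  rw [rad, norm_smul, Real.norm_of_nonneg this]
  field_simp

lemma rad_mem {n : ℕ} (t : I) {z : Fin n → ℝ} (hz : 1 / 2 ≤ ‖z‖) (hz1 : ‖z‖ ≤ 1) :
    ‖rad t z‖ ≤ 1 := by
  rw [norm_rad t (by linarith)]
  have h0 := t.2.1
  have h1 := t.2.2
  nlinarith

lemma rad_one {n : ℕ} {z : Fin n → ℝ} (hz : 1 / 2 ≤ ‖z‖) : ‖rad 1 z‖ = 1 := by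
  rw [norm_rad 1 (by linarith)]; simp

lemma continuousOn_rad {n : ℕ} :
    ContinuousOn (fun p : (Fin n → ℝ) × I => rad p.2 p.1) {p | 1 / 2 ≤ ‖p.1‖} := by
  unfold rad
  have h1 : ContinuousOn (fun p : (Fin n → ℝ) × I => ‖p.1‖⁻¹) {p | 1 / 2 ≤ ‖p.1‖} := by
    refine ContinuousOn.inv₀ (continuous_fst.norm.continuousOn) ?_
    intro p hp h0
    simp only [mem_ofPred_eq] at hp
    linarith
  have h2 : Continuous (fun p : (Fin n → ℝ) × I => (p.2 : ℝ)) :=
    continuous_subtype_val.comp continuous_snd
  exact ((continuous_const.sub h2).continuousOn.add (h2.continuousOn.mul h1)).smul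
    continuous_fst.continuousOn

/-- Continuity on the image of a compact set. -/
lemma continuousOn_of_comp {P Z W : Type} [TopologicalSpace P] [TopologicalSpace Z] [T2Space Z]
    [TopologicalSpace W] {S : Set P} (hS : IsCompact S) {g : P → Z} (hg : ContinuousOn g S)
    {R : Z → W} (hR : ContinuousOn (R ∘ g) S) : ContinuousOn R (g '' S) := by
  rw [continuousOn_iff_isClosed]
  intro C hC
  obtain ⟨u, hu, hu2⟩ := (continuousOn_iff_isClosed.1 hR) C hC
  refine ⟨g '' (S ∩ u), ((hS.inter_right hu).image_of_continuousOn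
    (hg.mono inter_subset_left)).isClosed, ?_⟩
  ext z
  constructor
  · rintro ⟨h1, p, hp, rfl⟩
    have : p ∈ (R ∘ g) ⁻¹' C ∩ S := ⟨h1, hp⟩
    rw [hu2] at this
    exact ⟨⟨p, ⟨hp, this.1⟩, rfl⟩, p, hp, rfl⟩
  · rintro ⟨⟨p, hp, rfl⟩, h2⟩
    have : p ∈ u ∩ S := ⟨hp.2, hp.1⟩
    rw [← hu2] at this
    exact ⟨this.1, h2⟩

theorem LEx.attach {Z : Type} [TopologicalSpace Z] [T2Space Z] {ω : (I → Z) → ZMod 2}
    (hω : Coc ω) {A : Set Z} (hA : IsClosed A) (hLE : LEx ω A) {n : ℕ}
    (Φ : PartialEquiv (Fin n → ℝ) Z) (hsrc : Φ.source = ball 0 1)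
    (hc : ContinuousOn Φ (closedBall 0 1)) (hcs : ContinuousOn Φ.symm Φ.target)
    (hdisj : Disjoint (Φ '' ball 0 1) A) (hbd : MapsTo Φ (sphere 0 1) A) :
    LEx ω (A ∪ Φ '' closedBall 0 1) := by
  classical
  have htgt : Φ.target = Φ '' ball 0 1 := by rw [← hsrc, Φ.image_source_eq_target]
  have hinv : ∀ z ∈ ball (0 : Fin n → ℝ) 1, Φ.symm (Φ z) = z := fun z hz =>
    Φ.left_inv (by rwa [hsrc])
  have hsplit : ∀ z ∈ closedBall (0 : Fin n → ℝ) 1, z ∈ ball (0 : Fin n → ℝ) 1 ∨ ‖z‖ = 1 := by
    intro z hz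
    rw [mem_closedBall_zero_iff] at hz
    rcases hz.lt_or_eq with h | h
    · exact Or.inl (mem_ball_zero_iff.2 h)
    · exact Or.inr h
  intro x hx
  by_cases hxA : x ∈ A
  · obtain ⟨U, hU, hxU, ε, hε⟩ := hLE x hxA
    let R : Z × I → Z := fun p => if p.1 ∈ Φ.target then Φ (rad p.2 (Φ.symm p.1)) else p.1
    let Sh : Set (Fin n → ℝ) := {z | 1 / 2 ≤ ‖z‖ ∧ ‖z‖ ≤ 1}
    have hShc : IsCompact Sh := by
      refine (isCompact_closedBall (0 : Fin n → ℝ) 1).of_isClosed_subset ?_ ?_
      · exact (isClosed_le continuous_const continuous_norm).inter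
          (isClosed_le continuous_norm continuous_const)
      · intro z hz; exact mem_closedBall_zero_iff.2 hz.2
    have hRA : ∀ p ∈ A, ∀ t, R (p, t) = p := by
      intro p hp t
      have : p ∉ Φ.target := by
        rw [htgt]; exact fun h => Set.disjoint_left.1 hdisj h hp
      simp [R, this]
    have hRS : ∀ z ∈ Sh, ∀ t, R (Φ z, t) = Φ (rad t z) := by
      intro z hz t
      rcases hsplit z (mem_closedBall_zero_iff.2 hz.2) with h | h
      · have : Φ z ∈ Φ.target := by rw [htgt]; exact ⟨z, h, rfl⟩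
        simp only [R, this, if_true, hinv z h]
      · rw [hRA _ (hbd (mem_sphere_zero_iff_norm.2 h)), rad_sphere t h]
    let N : Set Z := A ∪ Φ '' Sh
    have hcSh : ContinuousOn Φ Sh := hc.mono fun z hz => mem_closedBall_zero_iff.2 hz.2
    have hRc : ContinuousOn R (N ×ˢ univ) := by
      have h1 : ContinuousOn R (A ×ˢ univ) :=
        continuous_fst.continuousOn.congr fun p hp => hRA p.1 hp.1 p.2
      have h2 : ContinuousOn R ((Φ '' Sh) ×ˢ univ) := by
        have h3 : (Φ '' Sh) ×ˢ (univ : Set I) =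
            (fun p : (Fin n → ℝ) × I => (Φ p.1, p.2)) '' (Sh ×ˢ univ) := by
          ext ⟨p, t⟩
          constructor
          · rintro ⟨⟨z, hz, rfl⟩, -⟩
            exact ⟨(z, t), ⟨hz, mem_univ _⟩, rfl⟩
          · rintro ⟨⟨z, t'⟩, ⟨hz, -⟩, h⟩
            simp only [Prod.mk.injEq] at h
            exact ⟨⟨z, hz, h.1⟩, mem_univ _⟩
        rw [h3]
        refine continuousOn_of_comp (hShc.prod isCompact_univ) ?_ ?_
        · exact (hcSh.comp continuous_fst.continuousOn fun p hp => hp.1).prodMk
            continuous_snd.continuousOn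
        · refine ContinuousOn.congr (f := fun p : (Fin n → ℝ) × I => Φ (rad p.2 p.1)) ?_ ?_
          · refine hc.comp (continuousOn_rad.mono fun p hp => hp.1.1) ?_
            intro p hp
            exact mem_closedBall_zero_iff.2 (rad_mem _ hp.1.1 hp.1.2)
          · intro p hp
            exact hRS p.1 hp.1 p.2
      have h4 : N ×ˢ (univ : Set I) = A ×ˢ univ ∪ (Φ '' Sh) ×ˢ univ := by
        simp only [N, union_prod]
      rw [h4]
      exact h1.union_of_isClosed h2 (hA.prod isClosed_univ)
        ((hShc.image_of_continuousOn hcSh).isClosed.prod isClosed_univ)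
    have hR0 : ∀ p ∈ N, R (p, 0) = p := by
      rintro p (hp | ⟨z, hz, rfl⟩)
      · exact hRA p hp 0
      · rw [hRS z hz, rad_zero]
    have hR1 : ∀ p ∈ N, R (p, 1) ∈ A := by
      rintro p (hp | ⟨z, hz, rfl⟩)
      · rw [hRA p hp]; exact hp
      · rw [hRS z hz]
        exact hbd (mem_sphere_zero_iff_norm.2 (rad_one hz.1))
    have hR1c : ContinuousOn (fun p => R (p, 1)) N :=
      hRc.comp (continuous_id.prodMk continuous_const).continuousOn fun p hp => ⟨hp, mem_univ _⟩
    obtain ⟨U', hU', hUU'⟩ := (continuousOn_iff'.1 hR1c) U hU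
    have hK : IsClosed (Φ '' closedBall (0 : Fin n → ℝ) (1 / 2)) :=
      ((isCompact_closedBall _ _).image_of_continuousOn
        (hc.mono (closedBall_subset_closedBall (by norm_num)))).isClosed
    refine ⟨U' ∩ (Φ '' closedBall (0 : Fin n → ℝ) (1 / 2))ᶜ, hU'.inter hK.isOpen_compl, ⟨?_, ?_⟩,
      fun p => ε (R (p, 1)) + ω (fun t => R (p, t)), ?_⟩
    · have : x ∈ (fun p => R (p, 1)) ⁻¹' U ∩ N := ⟨by simpa [hRA x hxA] using hxU, Or.inl hxA⟩
      rw [hUU'] at this
      exact this.1
    · rintro ⟨z, hz, rfl⟩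
      exact Set.disjoint_left.1 hdisj ⟨z, closedBall_subset_ball (by norm_num) hz, rfl⟩ hxA
    · intro γ hγ hγm
      have hγN : ∀ s, γ s ∈ N := by
        intro s
        rcases (hγm s).1 with h | ⟨z, hz, h⟩
        · exact Or.inl h
        · refine Or.inr ⟨z, ⟨?_, mem_closedBall_zero_iff.1 hz⟩, h⟩
          by_contra hlt
          exact (hγm s).2.2 ⟨z, mem_closedBall_zero_iff.2 (by linarith), h⟩
      have hΦc : Continuous (fun p : I × I => R (γ p.2, p.1)) :=
        hRc.comp_continuous ((hγ.comp continuous_snd).prodMk continuous_fst)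
          fun p => ⟨hγN _, mem_univ _⟩
      have hsq := hω.sq (fun t s => R (γ s, t)) hΦc
      have e0 : (fun s => R (γ s, 0)) = γ := funext fun s => hR0 _ (hγN s)
      have e1 := hε (fun s => R (γ s, 1))
        (hΦc.comp (continuous_const.prodMk continuous_id : Continuous fun s : I => ((1 : I), s)))
        (fun s => ⟨hR1 _ (hγN s), by
          have : γ s ∈ U' ∩ N := ⟨(hγm s).2.1, hγN s⟩
          rw [← hUU'] at this
          exact this.1⟩)
      simp only [e0] at hsq
      exact z2_move2 hsq e1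
  · obtain ⟨z0, hz0, rfl⟩ := hx.resolve_left hxA
    have hz0' : ‖z0‖ < 1 := by
      rcases hsplit z0 hz0 with h | h
      · exact mem_ball_zero_iff.1 h
      · exact absurd (hbd (mem_sphere_zero_iff_norm.2 h)) hxA
    refine ⟨Aᶜ, hA.isOpen_compl, hxA, fun p => ω (fun t => Φ ((t : ℝ) • Φ.symm p)), ?_⟩
    intro γ hγ hγm
    have hγt : ∀ s, γ s ∈ Φ.target := by
      intro s
      obtain ⟨z, hz, h⟩ := (hγm s).1.resolve_left (hγm s).2
      rcases hsplit z hz with h1 | h1
      · rw [htgt]; exact ⟨z, h1, h⟩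
      · exact absurd (h ▸ hbd (mem_sphere_zero_iff_norm.2 h1)) (hγm s).2
    have hc1 : Continuous fun s => Φ.symm (γ s) := hcs.comp_continuous hγ hγt
    have hΦc : Continuous (fun p : I × I => Φ ((p.1 : ℝ) • Φ.symm (γ p.2))) := by
      refine hc.comp_continuous ((continuous_subtype_val.comp continuous_fst).smul
        (hc1.comp continuous_snd)) fun p => ?_
      have h1 : Φ.symm (γ p.2) ∈ ball (0 : Fin n → ℝ) 1 := by
        rw [← hsrc]; exact Φ.map_target (hγt _)
      rw [mem_closedBall_zero_iff, norm_smul, Real.norm_of_nonneg p.1.2.1]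
      have h2 := mem_ball_zero_iff.1 h1
      have := p.1.2.2
      have := p.1.2.1
      nlinarith [norm_nonneg (Φ.symm (γ p.2))]
    have hsq := hω.sq (fun t s => Φ ((t : ℝ) • Φ.symm (γ s))) hΦc
    have e0 : (fun s => Φ (((0 : I) : ℝ) • Φ.symm (γ s))) = fun _ => Φ 0 := by
      funext s; simp
    have e1 : (fun s => Φ (((1 : I) : ℝ) • Φ.symm (γ s))) = γ := by
      funext s; simp [Φ.right_inv (hγt s)]
    simp only [e0, e1, hω.const, zero_add] at hsq
    exact hsq

/-- A cocycle on a finite CW complex is locally exact. -/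
theorem lex_of_cw {K : Type} [TopologicalSpace K] [T2Space K] [CWComplex (univ : Set K)]
    [hfin : RelCWComplex.Finite (univ : Set K)] {ω : (I → K) → ZMod 2} (hω : Coc ω) :
    LEx ω univ := by
  classical
  have hsk : ∀ n : ℕ, LEx ω (RelCWComplex.skeletonLT (univ : Set K) (n : ℕ∞) : Set K) := by
    intro n
    induction n with
    | zero =>
      intro x hx
      rw [Nat.cast_zero, CWComplex.skeletonLT_zero_eq_empty] at hx
      exact hx.elim
    | succ n ih =>
      have hF : ∀ F : Finset (RelCWComplex.cell (univ : Set K) n),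
          LEx ω ((RelCWComplex.skeletonLT (univ : Set K) (n : ℕ∞) : Set K) ∪
            ⋃ e ∈ F, RelCWComplex.closedCell n e) := by
        intro F
        induction F using Finset.induction_on with
        | empty => simpa using ih
        | insert e F he ihF =>
          have hcl : IsClosed ((RelCWComplex.skeletonLT (univ : Set K) (n : ℕ∞) : Set K) ∪
              ⋃ e ∈ F, RelCWComplex.closedCell n e) :=
            (RelCWComplex.skeletonLT (univ : Set K) (n : ℕ∞)).closed.union
              (isClosed_biUnion_finset fun e _ => RelCWComplex.isClosed_closedCell)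
          have := LEx.attach hω hcl ihF (RelCWComplex.map n e) (RelCWComplex.source_eq n e)
            (RelCWComplex.continuousOn n e) (RelCWComplex.continuousOn_symm n e) ?_ ?_
          · convert this using 1
            rw [Finset.set_biUnion_insert, union_assoc, union_comm (⋃ e ∈ F, _)]
            rfl
          · rw [Set.disjoint_left]
            rintro x hx (h | h)
            · exact Set.disjoint_left.1
                (RelCWComplex.disjoint_skeletonLT_openCell (j := e) le_rfl) h hx
            · simp only [mem_iUnion] at h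
              obtain ⟨e', he', h⟩ := h
              rw [← RelCWComplex.cellFrontier_union_openCell_eq_closedCell] at h
              rcases h with h | h
              · exact Set.disjoint_left.1
                  (RelCWComplex.disjoint_skeletonLT_openCell (j := e) le_rfl)
                  (RelCWComplex.cellFrontier_subset_skeletonLT n e' h) hx
              · have hne : (⟨n, e⟩ : Σ n, RelCWComplex.cell (univ : Set K) n) ≠ ⟨n, e'⟩ := by
                  intro h'
                  have : e = e' := eq_of_heq (Sigma.mk.inj h').2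
                  exact he (this ▸ he')
                exact Set.disjoint_left.1 (RelCWComplex.disjoint_openCell_of_ne hne) hx h
          · intro z hz
            exact Or.inl (RelCWComplex.cellFrontier_subset_skeletonLT n e ⟨z, hz, rfl⟩)
      have : Finite (RelCWComplex.cell (univ : Set K) n) := hfin.finite_cell n
      let _ := Fintype.ofFinite (RelCWComplex.cell (univ : Set K) n)
      have h2 := hF Finset.univ
      simp only [Finset.mem_univ, iUnion_true] at h2
      rw [RelCWComplex.skeletonLT_union_iUnion_closedCell_eq_skeletonLT_succ] at h2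
      exact_mod_cast h2
  obtain ⟨d, hd⟩ := Filter.eventually_atTop.1
    hfin.eventually_isEmpty_cell
  have heq : (RelCWComplex.skeletonLT (univ : Set K) (d : ℕ∞) : Set K) = univ := by
    refine eq_univ_of_forall fun x => ?_
    have hx : x ∈ ⋃ (n : ℕ) (j : RelCWComplex.cell (univ : Set K) n),
        RelCWComplex.openCell n j := by
      rw [CWComplex.iUnion_openCell_eq_complex]; exact mem_univ _
    simp only [mem_iUnion] at hx
    obtain ⟨n, j, hj⟩ := hx
    have hn : n < d := by
      by_contra h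
      exact (hd n (by omega)).false j
    refine RelCWComplex.skeletonLT_mono (n := (d : ℕ∞)) (m := ((n : ℕ∞) + 1)) ?_
      (RelCWComplex.openCell_subset_skeletonLT n j hj)
    exact_mod_cast hn
  have := hsk d
  rwa [heq] at this

theorem compact_of_cw {K : Type} [TopologicalSpace K] [CWComplex (univ : Set K)]
    [hfin : RelCWComplex.Finite (univ : Set K)] : CompactSpace K := by
  have := RelCWComplex.finite_cells_of_finite (C := (univ : Set K))
  constructor
  rw [← CWComplex.union (C := (univ : Set K)), iUnion_sigma']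
  exact isCompact_iUnion fun p => RelCWComplex.isCompact_closedCell

end Pool.Agent.H968Z.Klein
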