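import Mathlib

set_option autoImplicit false

namespace Pool.Agent.H968Z.Klein

open Topology

/-- `K` is a finite CW complex. -/
def IsFiniteCW (K : Type) [TopologicalSpace K] : Prop :=
  T2Space K ∧ ∃ _ : CWComplex (Set.univ : Set K), RelCWComplex.Finite (Set.univ : Set K)

/-- `Y` is a homotopy retract of a finite CW complex. -/
def FinitelyDominated (Y : Type) [TopologicalSpace Y] : Prop :=
  ∃ (K : Type) (_ : TopologicalSpace K), IsFiniteCW K ∧
    ∃ (i : C(Y, K)) (r : C(K, Y)), (r.comp i).Homotopic (ContinuousMap.id Y)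

/-- `(Y, y)` is a `K(Q, 1)`: path connected, with fundamental group `Q` and trivial higher
homotopy groups. -/
def IsKPiOne (Q : Type) [Group Q] (Y : Type) [TopologicalSpace Y] (y : Y) : Prop :=
  PathConnectedSpace Y ∧ Nonempty (FundamentalGroup Y y ≃* Q) ∧
    ∀ n, 2 ≤ n → Subsingleton (HomotopyGroup.Pi n Y y)

/-- The intersection of the images of the positive powers of an endomorphism. -/
def stableImage {G : Type} [Group G] (f : Monoid.End G) : Subgroup G :=
  ⨅ k : ℕ, (f ^ (k + 1) : Monoid.End G).range

end Pool.Agent.H968Z.Klein
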