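import Mathlib
import Pool.Agent.H968Z.Klein.Defs
import Pool.Agent.H968Z.Klein.Coc

set_option autoImplicit false

namespace Pool.Agent.H968Z.Klein

open Set Metric Topology

/-- The sign `(-1)^k`. -/
def sgk (k : ℤ) : ℤ := 1 - 2 * (k % 2)

lemma sgk_add (a b : ℤ) : sgk (a + b) = sgk a * sgk b := by
  unfold sgk
  rcases Int.emod_two_eq_zero_or_one a with h | h <;>
    rcases Int.emod_two_eq_zero_or_one b with h' | h' <;> simp [Int.add_emod, h, h']

lemma sgk_zero : sgk 0 = 1 := rfl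

lemma sgk_cases (k : ℤ) : sgk k = 1 ∨ sgk k = -1 := by
  unfold sgk; omega

lemma sgk_neg (k : ℤ) : sgk (-k) = sgk k := by
  unfold sgk; omega

/-- The Klein bottle group. -/
@[ext] structure KG where
  n : ℤ
  k : ℤ

instance : Group KG where
  mul a b := ⟨a.n + sgk a.k * b.n, a.k + b.k⟩
  one := ⟨0, 0⟩
  inv a := ⟨-(sgk a.k * a.n), -a.k⟩
  mul_assoc a b c := by
    refine KG.ext ?_ ?_
    · show a.n + sgk a.k * b.n + sgk (a.k + b.k) * c.n = a.n + sgk a.k * (b.n + sgk b.k * c.n)
      rw [sgk_add]; ring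
    · show a.k + b.k + c.k = a.k + (b.k + c.k)
      ring
  one_mul a := by
    refine KG.ext ?_ ?_
    · show 0 + sgk 0 * a.n = a.n
      simp [sgk_zero]
    · show 0 + a.k = a.k
      simp
  mul_one a := by
    refine KG.ext ?_ ?_
    · show a.n + sgk a.k * 0 = a.n
      simp
    · show a.k + 0 = a.k
      simp
  inv_mul_cancel a := by
    refine KG.ext ?_ ?_
    · show -(sgk a.k * a.n) + sgk (-a.k) * a.n = 0
      rw [sgk_neg]; ring
    · show -a.k + a.k = 0
      ring

@[simp] lemma KG.mul_n (a b : KG) : (a * b).n = a.n + sgk a.k * b.n := rfl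
@[simp] lemma KG.mul_k (a b : KG) : (a * b).k = a.k + b.k := rfl
@[simp] lemma KG.one_n : (1 : KG).n = 0 := rfl
@[simp] lemma KG.one_k : (1 : KG).k = 0 := rfl

instance : MulAction KG (ℝ × ℝ) where
  smul g p := (sgk g.k * p.1 + g.n, p.2 + g.k)
  one_smul p := by
    refine Prod.ext ?_ ?_
    · show ((sgk 0 : ℤ) : ℝ) * p.1 + ((0 : ℤ) : ℝ) = p.1
      simp [sgk_zero]
    · show p.2 + ((0 : ℤ) : ℝ) = p.2
      simp
  mul_smul a b p := by
    refine Prod.ext ?_ ?_
    · show ((sgk (a.k + b.k) : ℤ) : ℝ) * p.1 + ((a.n + sgk a.k * b.n : ℤ) : ℝ) =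
        sgk a.k * (sgk b.k * p.1 + b.n) + a.n
      rw [sgk_add]; push_cast; ring
    · show p.2 + ((a.k + b.k : ℤ) : ℝ) = p.2 + b.k + a.k
      push_cast; ring

@[simp] lemma KG.smul_fst (g : KG) (p : ℝ × ℝ) : (g • p).1 = sgk g.k * p.1 + g.n := rfl
@[simp] lemma KG.smul_snd (g : KG) (p : ℝ × ℝ) : (g • p).2 = p.2 + g.k := rfl

instance : ContinuousConstSMul KG (ℝ × ℝ) where
  continuous_const_smul g := by
    show Continuous fun p : ℝ × ℝ => ((sgk g.k : ℝ) * p.1 + g.n, p.2 + g.k)
    fun_prop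

lemma abs_sgk (k : ℤ) : |(sgk k : ℝ)| = 1 := by
  rcases sgk_cases k with h | h <;> simp [h]

instance : ProperlyDiscontinuousSMul KG (ℝ × ℝ) where
  finite_disjoint_inter_image := by
    intro K L hK hL
    obtain ⟨R, hR⟩ := (hK.union hL).isBounded.exists_norm_le
    obtain ⟨M, hM⟩ := exists_int_ge (2 * R)
    refine (((Set.finite_Icc (-M) M).prod (Set.finite_Icc (-M) M)).image
      (fun p : ℤ × ℤ => (⟨p.1, p.2⟩ : KG))).subset ?_
    rintro g ⟨_, ⟨p, hp, rfl⟩, hq⟩
    have h1 := hR p (Or.inl hp)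
    have h2 := hR _ (Or.inr hq)
    have a1 := abs_le.1 ((norm_fst_le p).trans h1)
    have a2 := abs_le.1 ((norm_snd_le p).trans h1)
    have a3 := abs_le.1 ((norm_fst_le (g • p)).trans h2)
    have a4 := abs_le.1 ((norm_snd_le (g • p)).trans h2)
    simp only [KG.smul_fst, KG.smul_snd] at a3 a4
    have b1 : (-M : ℝ) ≤ g.n ∧ (g.n : ℝ) ≤ M := by
      rcases sgk_cases g.k with h | h <;> rw [h] at a3 <;> push_cast at a3 <;>
        constructor <;> linarith [a1.1, a1.2, a3.1, a3.2]
    have b2 : (-M : ℝ) ≤ g.k ∧ (g.k : ℝ) ≤ M := by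
      constructor <;> linarith [a2.1, a2.2, a4.1, a4.2]
    refine ⟨(g.n, g.k), ⟨⟨?_, ?_⟩, ⟨?_, ?_⟩⟩, rfl⟩
    · exact_mod_cast b1.1
    · exact_mod_cast b1.2
    · exact_mod_cast b2.1
    · exact_mod_cast b2.2

instance : IsCancelSMul KG (ℝ × ℝ) := by
  rw [isCancelSMul_iff_eq_one_of_smul_eq]
  intro g p h
  have h1 := congrArg Prod.fst h
  have h2 := congrArg Prod.snd h
  simp only [KG.smul_fst, KG.smul_snd] at h1 h2
  have hk : g.k = 0 := by
    have : (g.k : ℝ) = 0 := by linarith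
    exact_mod_cast this
  rw [hk, sgk_zero] at h1
  have hn : g.n = 0 := by
    have : (g.n : ℝ) = 0 := by push_cast at h1; linarith
    exact_mod_cast this
  exact KG.ext hn hk

/-- The Klein bottle. -/
abbrev KB : Type := Quotient (MulAction.orbitRel KG (ℝ × ℝ))

/-- The universal covering. -/
def pr : ℝ × ℝ → KB := Quotient.mk _

lemma hpr : IsQuotientCoveringMap pr KG :=
  isQuotientCoveringMap_quotientMk_of_properlyDiscontinuousSMul

lemma pr_eq {p p' : ℝ × ℝ} : pr p = pr p' ↔ ∃ g : KG, g • p' = p := hpr.apply_eq_iff_mem_orbit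

lemma pr_smul (g : KG) (p : ℝ × ℝ) : pr (g • p) = pr p := pr_eq.2 ⟨g, rfl⟩

lemma continuous_pr : Continuous pr := hpr.continuous

lemma pr_surj : Function.Surjective pr := hpr.surjective

lemma pr_inj {p p' : ℝ × ℝ} (h : pr p = pr p') (h1 : |p.1 - p'.1| < 1) (h2 : |p.2 - p'.2| < 1) :
    p = p' := by
  obtain ⟨g, rfl⟩ := pr_eq.1 h
  simp only [KG.smul_fst, KG.smul_snd] at h1 h2
  have hk : g.k = 0 := by
    have : |(g.k : ℝ)| < 1 := by simpa using h2
    have h3 : |g.k| < 1 := by exact_mod_cast this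
    exact Int.abs_lt_one_iff.1 h3
  rw [hk, sgk_zero] at h1
  have hn : g.n = 0 := by
    have : |(g.n : ℝ)| < 1 := by simpa using h1
    have h3 : |g.n| < 1 := by exact_mod_cast this
    exact Int.abs_lt_one_iff.1 h3
  have : g = 1 := KG.ext hn hk
  rw [this, one_smul]

instance : PathConnectedSpace KB := pr_surj.pathConnectedSpace continuous_pr

/-! ### The cell structure -/

/-- The cells. -/
def cell : ℕ → Type
  | 0 => Unit
  | 1 => Bool
  | 2 => Unit
  | _ + 3 => Empty

/-- The characteristic maps, lifted to the plane. -/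
noncomputable def chr : (n : ℕ) → cell n → (Fin n → ℝ) → ℝ × ℝ
  | 0, _, _ => (0, 0)
  | 1, false, z => ((z 0 + 1) / 2, 0)
  | 1, true, z => (0, (z 0 + 1) / 2)
  | 2, _, z => ((z 0 + 1) / 2, (z 1 + 1) / 2)
  | _ + 3, e, _ => e.elim

lemma continuous_chr : ∀ (n : ℕ) (c : cell n), Continuous (chr n c)
  | 0, _ => continuous_const
  | 1, false => by unfold chr; fun_prop
  | 1, true => by unfold chr; fun_prop
  | 2, _ => by unfold chr; fun_prop
  | _ + 3, e => e.elim

lemma co_le {n : ℕ} {z : Fin n → ℝ} (hz : z ∈ closedBall (0 : Fin n → ℝ) 1) (i : Fin n) :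
    -1 ≤ z i ∧ z i ≤ 1 :=
  abs_le.1 ((norm_le_pi_norm z i).trans (mem_closedBall_zero_iff.1 hz))

lemma co_lt {n : ℕ} {z : Fin n → ℝ} (hz : z ∈ ball (0 : Fin n → ℝ) 1) (i : Fin n) :
    -1 < z i ∧ z i < 1 :=
  abs_lt.1 ((norm_le_pi_norm z i).trans_lt (mem_ball_zero_iff.1 hz))

lemma chr_inj : ∀ (n : ℕ) (c : cell n) (z z' : Fin n → ℝ), z ∈ closedBall (0 : Fin n → ℝ) 1 →
    z' ∈ ball (0 : Fin n → ℝ) 1 → pr (chr n c z) = pr (chr n c z') → z = z'
  | 0, _, z, z', _, _, _ => Subsingleton.elim _ _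
  | 1, false, z, z', hz, hz', h => by
    have a := co_le hz 0
    have b := co_lt hz' 0
    have := pr_inj h (by simp only [chr]; rw [abs_lt]; constructor <;> linarith) (by simp [chr])
    have h1 := congrArg Prod.fst this
    simp only [chr] at h1
    funext i; fin_cases i; simp only [Fin.zero_eta]; linarith
  | 1, true, z, z', hz, hz', h => by
    have a := co_le hz 0
    have b := co_lt hz' 0
    have := pr_inj h (by simp [chr]) (by simp only [chr]; rw [abs_lt]; constructor <;> linarith)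
    have h1 := congrArg Prod.snd this
    simp only [chr] at h1
    funext i; fin_cases i; simp only [Fin.zero_eta]; linarith
  | 2, _, z, z', hz, hz', h => by
    have a := co_le hz 0
    have b := co_lt hz' 0
    have a' := co_le hz 1
    have b' := co_lt hz' 1
    have := pr_inj h (by simp only [chr]; rw [abs_lt]; constructor <;> linarith)
      (by simp only [chr]; rw [abs_lt]; constructor <;> linarith)
    have h1 := congrArg Prod.fst this
    have h2 := congrArg Prod.snd this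
    simp only [chr] at h1 h2
    funext i; fin_cases i
    · simp only [Fin.zero_eta]; linarith
    · simp only [Fin.mk_one]; linarith
  | _ + 3, e, _, _, _, _, _ => e.elim

/-- The type of an open cell: which coordinates are positive. -/
def typ : (n : ℕ) → cell n → Bool × Bool
  | 0, _ => (false, false)
  | 1, false => (true, false)
  | 1, true => (false, true)
  | 2, _ => (true, true)
  | _ + 3, e => e.elim

lemma chr_typ : ∀ (n : ℕ) (c : cell n) (z : Fin n → ℝ), z ∈ ball (0 : Fin n → ℝ) 1 →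
    (0 ≤ (chr n c z).1 ∧ (chr n c z).1 < 1) ∧ (0 ≤ (chr n c z).2 ∧ (chr n c z).2 < 1) ∧
      typ n c = (decide (0 < (chr n c z).1), decide (0 < (chr n c z).2))
  | 0, _, _, _ => by simp [chr, typ]
  | 1, false, z, hz => by
    have b := co_lt hz 0
    have : 0 < (z 0 + 1) / 2 := by linarith
    simp only [chr, typ, this, lt_irrefl]
    refine ⟨⟨by linarith, by linarith⟩, ⟨le_rfl, one_pos⟩, by simp⟩
  | 1, true, z, hz => by
    have b := co_lt hz 0
    have : 0 < (z 0 + 1) / 2 := by linarith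
    simp only [chr, typ, this, lt_irrefl]
    refine ⟨⟨le_rfl, one_pos⟩, ⟨by linarith, by linarith⟩, by simp⟩
  | 2, _, z, hz => by
    have b := co_lt hz 0
    have b' := co_lt hz 1
    have h1 : 0 < (z 0 + 1) / 2 := by linarith
    have h2 : 0 < (z 1 + 1) / 2 := by linarith
    simp only [chr, typ, h1, h2]
    refine ⟨⟨by linarith, by linarith⟩, ⟨by linarith, by linarith⟩, by simp⟩
  | _ + 3, e, _, _ => e.elim

lemma typ_inj : ∀ (a b : Σ n, cell n), typ a.1 a.2 = typ b.1 b.2 → a = b := by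
  rintro ⟨n, c⟩ ⟨m, d⟩ h
  match n, c, m, d, h with
  | 0, _, 0, _, _ => rfl
  | 0, _, 1, false, h => simp [typ] at h
  | 0, _, 1, true, h => simp [typ] at h
  | 0, _, 2, _, h => simp [typ] at h
  | 1, false, 0, _, h => simp [typ] at h
  | 1, false, 1, false, _ => rfl
  | 1, false, 1, true, h => simp [typ] at h
  | 1, false, 2, _, h => simp [typ] at h
  | 1, true, 0, _, h => simp [typ] at h
  | 1, true, 1, false, h => simp [typ] at h
  | 1, true, 1, true, _ => rfl
  | 1, true, 2, _, h => simp [typ] at h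
  | 2, _, 0, _, h => simp [typ] at h
  | 2, _, 1, false, h => simp [typ] at h
  | 2, _, 1, true, h => simp [typ] at h
  | 2, _, 2, _, _ => rfl
  | _ + 3, e, _, _, _ => exact e.elim
  | _, _, _ + 3, e, _ => exact e.elim

/-- The characteristic maps. -/
noncomputable def cmap (n : ℕ) (c : cell n) : PartialEquiv (Fin n → ℝ) KB :=
  InjOn.toPartialEquiv (fun z => pr (chr n c z)) (ball 0 1)
    fun z hz z' hz' h => chr_inj n c z z' (ball_subset_closedBall hz) hz' h

lemma cmap_apply (n : ℕ) (c : cell n) (z : Fin n → ℝ) : cmap n c z = pr (chr n c z) := rfl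

lemma cmap_source (n : ℕ) (c : cell n) : (cmap n c).source = ball 0 1 := rfl

lemma cmap_cont (n : ℕ) (c : cell n) : Continuous (cmap n c) :=
  continuous_pr.comp (continuous_chr n c)

lemma cmap_symm_cont (n : ℕ) (c : cell n) : ContinuousOn (cmap n c).symm (cmap n c).target := by
  rw [continuousOn_iff_isClosed]
  intro C hC
  refine ⟨cmap n c '' (closedBall 0 1 ∩ C), (((isCompact_closedBall _ _).inter_right hC).image
    (cmap_cont n c)).isClosed, ?_⟩
  ext y
  constructor
  · rintro ⟨h1, h2⟩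
    exact ⟨⟨_, ⟨ball_subset_closedBall ((cmap n c).map_target h2), h1⟩, (cmap n c).right_inv h2⟩,
      h2⟩
  · rintro ⟨⟨z, hz, rfl⟩, h2⟩
    refine ⟨?_, h2⟩
    have := chr_inj n c z _ hz.1 ((cmap n c).map_target h2) ((cmap n c).right_inv h2).symm
    rw [mem_preimage, ← this]
    exact hz.2

lemma mem_edge (c : Bool) (x : ℝ) (h0 : 0 ≤ x) (h1 : x ≤ 1) :
    pr (if c then (0, x) else (x, 0)) ∈ cmap 1 c '' closedBall 0 1 := by
  refine ⟨fun _ => 2 * x - 1, ?_, ?_⟩
  · rw [mem_closedBall_zero_iff]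
    refine (pi_norm_le_iff_of_nonneg zero_le_one).2 fun _ => ?_
    rw [Real.norm_eq_abs, abs_le]; constructor <;> linarith
  · cases c <;> simp [cmap_apply, chr]

lemma sphere_co {n : ℕ} {z : Fin n → ℝ} (hz : z ∈ sphere (0 : Fin n → ℝ) 1) :
    ∃ i, z i = 1 ∨ z i = -1 := by
  have hx := mem_sphere_zero_iff_norm.1 hz
  obtain ⟨i, hi⟩ : ∃ i, 1 ≤ ‖z i‖ := by
    by_contra hlt
    push Not at hlt
    have := (pi_norm_lt_iff zero_lt_one).2 hlt
    linarith
  exact ⟨i, (abs_eq zero_le_one).1 (le_antisymm (hx ▸ norm_le_pi_norm z i) hi)⟩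

lemma cmap_mapsTo : ∀ (n : ℕ) (c : cell n),
    MapsTo (cmap n c) (sphere 0 1) (⋃ (m < n) (j : cell m), cmap m j '' closedBall 0 1)
  | 0, _ => fun z hz => by
    obtain ⟨i, -⟩ := sphere_co hz
    exact i.elim0
  | 1, c => fun z hz => by
    obtain ⟨i, hi⟩ := sphere_co hz
    have hi0 : i = 0 := Subsingleton.elim _ _
    subst hi0
    simp only [mem_iUnion]
    refine ⟨0, one_pos, (), 0, by simp, ?_⟩
    rw [cmap_apply, cmap_apply]
    cases c <;> rcases hi with h | h
    · exact (pr_eq.2 ⟨⟨1, 0⟩, by ext <;> simp [chr, h, sgk_zero]⟩).symm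
    · simp [chr, h]
    · exact (pr_eq.2 ⟨⟨0, 1⟩, by ext <;> simp [chr, h]⟩).symm
    · simp [chr, h]
  | 2, _ => fun z hz => by
    obtain ⟨i, hi⟩ := sphere_co hz
    have a := co_le (sphere_subset_closedBall hz) 0
    have b := co_le (sphere_subset_closedBall hz) 1
    simp only [mem_iUnion]
    rw [cmap_apply]
    fin_cases i <;> rcases hi with h | h
    · refine ⟨1, one_lt_two, true, ?_⟩
      have := mem_edge true ((z 1 + 1) / 2) (by linarith) (by linarith)
      convert this using 1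
      simp only [Fin.zero_eta] at h
      exact pr_eq.2 ⟨⟨1, 0⟩, by ext <;> simp [chr, h, sgk_zero]⟩
    · refine ⟨1, one_lt_two, true, ?_⟩
      have := mem_edge true ((z 1 + 1) / 2) (by linarith) (by linarith)
      simp only [Fin.zero_eta] at h
      simpa [chr, h] using this
    · refine ⟨1, one_lt_two, false, ?_⟩
      have := mem_edge false (1 - (z 0 + 1) / 2) (by linarith) (by linarith)
      convert this using 1
      simp only [Fin.mk_one] at h
      exact pr_eq.2 ⟨⟨1, 1⟩, by ext <;> simp [chr, h, sgk]⟩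
    · refine ⟨1, one_lt_two, false, ?_⟩
      have := mem_edge false ((z 0 + 1) / 2) (by linarith) (by linarith)
      simp only [Fin.mk_one] at h
      simpa [chr, h] using this
  | _ + 3, e => e.elim

lemma cmap_union : ⋃ (n : ℕ) (j : cell n), cmap n j '' closedBall 0 1 = univ := by
  refine eq_univ_of_forall fun x => ?_
  obtain ⟨p, rfl⟩ := pr_surj x
  simp only [mem_iUnion]
  let g1 : KG := ⟨0, -⌊p.2⌋⟩
  let p1 := g1 • p
  let g2 : KG := ⟨-⌊p1.1⌋, 0⟩
  let p2 := g2 • p1
  have h1 : p2.1 = Int.fract p1.1 := by simp [p2, g2, sgk_zero, Int.fract, sub_eq_add_neg]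
  have h2 : p2.2 = Int.fract p.2 := by simp [p2, g2, p1, g1, Int.fract, sub_eq_add_neg]
  refine ⟨2, (), ![2 * p2.1 - 1, 2 * p2.2 - 1], ?_, ?_⟩
  · rw [mem_closedBall_zero_iff]
    refine (pi_norm_le_iff_of_nonneg zero_le_one).2 fun i => ?_
    have := Int.fract_nonneg p1.1
    have := Int.fract_lt_one p1.1
    have := Int.fract_nonneg p.2
    have := Int.fract_lt_one p.2
    fin_cases i
    · simp only [Fin.zero_eta, Matrix.cons_val_zero, Real.norm_eq_abs, abs_le]
      constructor <;> linarith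
    · simp only [Fin.mk_one, Matrix.cons_val_one, Matrix.cons_val_zero, Real.norm_eq_abs, abs_le]
      constructor <;> linarith
  · rw [cmap_apply, ← pr_smul g1 p, ← pr_smul g2 (g1 • p)]
    congr 1
    ext <;> simp [chr, p2, p1]

lemma cell_finite : ∀ n, Finite (cell n)
  | 0 => inferInstanceAs (Finite Unit)
  | 1 => inferInstanceAs (Finite Bool)
  | 2 => inferInstanceAs (Finite Unit)
  | _ + 3 => inferInstanceAs (Finite Empty)

theorem isFiniteCW_KB : IsFiniteCW KB := by
  refine ⟨inferInstance, _, CWComplex.finite_mkFinite univ cell cmap ?_ cell_finite cmap_source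
    (fun n c => (cmap_cont n c).continuousOn) cmap_symm_cont ?_ cmap_mapsTo cmap_union⟩
  · refine Filter.eventually_atTop.2 ⟨3, fun n hn => ?_⟩
    obtain ⟨m, rfl⟩ : ∃ m, n = m + 3 := ⟨n - 3, by omega⟩
    exact inferInstanceAs (IsEmpty Empty)
  · intro a _ b _ hab
    rw [Function.onFun, Set.disjoint_left]
    rintro _ ⟨z, hz, rfl⟩ ⟨z', hz', h⟩
    obtain ⟨a1, a2, a3⟩ := chr_typ a.1 a.2 z hz
    obtain ⟨b1, b2, b3⟩ := chr_typ b.1 b.2 z' hz'
    have := pr_inj h (by rw [abs_lt]; constructor <;> linarith [a1.1, a1.2, b1.1, b1.2])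
      (by rw [abs_lt]; constructor <;> linarith [a2.1, a2.2, b2.1, b2.2])
    rw [this] at b3
    exact hab (typ_inj a b (a3.trans b3.symm))

end Pool.Agent.H968Z.Klein
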