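import Mathlib
import Pool.Agent.H968Z.Klein.Coc

set_option autoImplicit false

namespace Pool.Agent.H968Z.Klein

open unitInterval Set Metric Topology

section Ext

variable {Y : Type} [TopologicalSpace Y]

lemma extend_ball {n : ℕ} (y0 : Y) (G : (Fin (n + 1) → ℝ) × I → Y)
    (hG : ContinuousOn G (sphere 0 1 ×ˢ univ))
    (hG1 : ∀ x ∈ sphere (0 : Fin (n + 1) → ℝ) 1, G (x, 1) = y0) :
    ∃ F : (Fin (n + 1) → ℝ) → Y, ContinuousOn F (closedBall 0 1) ∧
      ∀ x ∈ sphere (0 : Fin (n + 1) → ℝ) 1, F x = G (x, 0) := by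
  classical
  let F : (Fin (n + 1) → ℝ) → Y := fun z =>
    if z = 0 then y0 else G (‖z‖⁻¹ • z, projIcc 0 1 zero_le_one (1 - ‖z‖))
  let m : (Fin (n + 1) → ℝ) × I → (Fin (n + 1) → ℝ) := fun p => (1 - (p.2 : ℝ)) • p.1
  have hm : Continuous m :=
    (continuous_const.sub (continuous_subtype_val.comp continuous_snd)).smul continuous_fst
  have hFm : ∀ p ∈ sphere (0 : Fin (n + 1) → ℝ) 1 ×ˢ (univ : Set I), F (m p) = G p := by
    rintro ⟨x, t⟩ ⟨hx, -⟩
    have hx1 : ‖x‖ = 1 := mem_sphere_zero_iff_norm.1 hx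
    have ht : 0 ≤ 1 - (t : ℝ) := by linarith [t.2.2]
    have hn : ‖m (x, t)‖ = 1 - (t : ℝ) := by
      simp only [m, norm_smul, hx1, mul_one, Real.norm_of_nonneg ht]
    by_cases h0 : m (x, t) = 0
    · have : t = 1 := by
        rw [h0, norm_zero] at hn
        exact Subtype.ext (by simp only [Set.Icc.coe_one]; linarith)
      simp only [F, h0, if_true]
      rw [this, hG1 x hx]
    · have hpos : 1 - (t : ℝ) ≠ 0 := by rw [← hn]; exact norm_ne_zero_iff.2 h0
      simp only [F, h0, if_false, hn]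
      congr 1
      refine Prod.ext ?_ ?_
      · simp only [m, smul_smul, inv_mul_cancel₀ hpos, one_smul]
      · simp
  have himg : closedBall (0 : Fin (n + 1) → ℝ) 1 = m '' (sphere 0 1 ×ˢ univ) := by
    ext z
    constructor
    · intro hz
      have hz1 := mem_closedBall_zero_iff.1 hz
      by_cases h0 : z = 0
      · refine ⟨(Pi.single 0 1, 1), ⟨?_, mem_univ _⟩, by simp [m, h0]⟩
        simp [Pi.norm_single]
      · have hpos : ‖z‖ ≠ 0 := norm_ne_zero_iff.2 h0
        refine ⟨(‖z‖⁻¹ • z, ⟨1 - ‖z‖, by linarith, by linarith [norm_nonneg z]⟩),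
          ⟨?_, mem_univ _⟩, ?_⟩
        · simp [norm_smul, hpos]
        · simp [m, smul_smul, hpos]
    · rintro ⟨⟨x, t⟩, ⟨hx, -⟩, rfl⟩
      have hx1 : ‖x‖ = 1 := mem_sphere_zero_iff_norm.1 hx
      have ht : 0 ≤ 1 - (t : ℝ) := by linarith [t.2.2]
      rw [mem_closedBall_zero_iff]
      simp only [m, norm_smul, hx1, mul_one, Real.norm_of_nonneg ht]
      linarith [t.2.1]
  refine ⟨F, ?_, ?_⟩
  · rw [himg]
    exact continuousOn_of_comp ((isCompact_sphere _ _).prod isCompact_univ) hm.continuousOn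
      (hG.congr hFm)
  · intro x hx
    have := hFm (x, 0) ⟨hx, mem_univ _⟩
    simpa [m] using this

/-- The cube `[0,1]^n` rescaled to `[-1,1]^n`. -/
def cw {n : ℕ} (u : Fin n → I) : Fin n → ℝ := fun i => 2 * (u i : ℝ) - 1

lemma norm_cw_le {n : ℕ} (u : Fin n → I) : ‖cw u‖ ≤ 1 := by
  refine (pi_norm_le_iff_of_nonneg zero_le_one).2 fun i => ?_
  rw [Real.norm_eq_abs, abs_le]
  have := (u i).2.1
  have := (u i).2.2
  unfold cw
  constructor <;> linarith

lemma cw_boundary {n : ℕ} (u : Fin (n + 1) → I) :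
    u ∈ Cube.boundary (Fin (n + 1)) ↔ ‖cw u‖ = 1 := by
  constructor
  · rintro ⟨i, hi⟩
    refine le_antisymm (norm_cw_le u) ?_
    refine le_trans ?_ (norm_le_pi_norm (cw u) i)
    rcases hi with h | h <;> simp [cw, h] <;> norm_num
  · intro h
    obtain ⟨i, hi⟩ : ∃ i, 1 ≤ ‖cw u i‖ := by
      by_contra hlt
      push Not at hlt
      have := (pi_norm_lt_iff zero_lt_one).2 hlt
      linarith
    refine ⟨i, ?_⟩
    rw [Real.norm_eq_abs, le_abs] at hi
    have h0 := (u i).2.1
    have h1 := (u i).2.2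
    unfold cw at hi
    rcases hi with hi | hi
    · right; exact Subtype.ext (by simp only [Set.Icc.coe_one]; linarith)
    · left; exact Subtype.ext (by simp only [Set.Icc.coe_zero]; linarith)

lemma cw_inj {n : ℕ} {u v : Fin n → I} (h : cw u = cw v) : u = v := by
  funext i
  have := congrFun h i
  unfold cw at this
  exact Subtype.ext (by linarith)

/-- Unnormalised collapse map. -/
noncomputable def ct {n : ℕ} (w : Fin n → ℝ) : Fin (n + 1) → ℝ :=
  Fin.cons (2 * ‖w‖ - 1) ((1 - ‖w‖) • w)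

lemma continuous_ct {n : ℕ} : Continuous (ct (n := n)) := by
  refine continuous_pi fun i => ?_
  refine Fin.cases ?_ (fun j => ?_) i
  · simp only [ct, Fin.cons_zero]; fun_prop
  · simp only [ct, Fin.cons_succ, Pi.smul_apply]; fun_prop

lemma ct_ne {n : ℕ} (w : Fin n → ℝ) : ct w ≠ 0 := by
  intro h
  have h0 := congrFun h 0
  have h1 : (1 - ‖w‖) • w = 0 := funext fun j => by simpa [ct] using congrFun h j.succ
  simp only [ct, Fin.cons_zero, Pi.zero_apply] at h0
  rcases smul_eq_zero.1 h1 with h2 | h2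
  · linarith
  · rw [h2, norm_zero] at h0; linarith

/-- The collapse map from the cube onto the sphere. -/
noncomputable def cl {n : ℕ} (u : Fin n → I) : Fin (n + 1) → ℝ := ‖ct (cw u)‖⁻¹ • ct (cw u)

lemma continuous_cl {n : ℕ} : Continuous (cl (n := n)) := by
  have h1 : Continuous (cw (n := n)) := by
    refine continuous_pi fun i => ?_
    unfold cw; fun_prop
  have h2 := continuous_ct.comp h1
  exact (h2.norm.inv₀ fun u => norm_ne_zero_iff.2 (ct_ne _)).smul h2

lemma cl_mem {n : ℕ} (u : Fin n → I) : cl u ∈ sphere (0 : Fin (n + 1) → ℝ) 1 := by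
  have := norm_ne_zero_iff.2 (ct_ne (cw u))
  simp [cl, norm_smul, this]

lemma cl_boundary {n : ℕ} {u : Fin n → I} (h : ‖cw u‖ = 1) : cl u = Pi.single 0 1 := by
  have h1 : ct (cw u) = Pi.single 0 1 := by
    funext i
    refine Fin.cases ?_ (fun j => ?_) i
    · simp [ct, h]; norm_num
    · simp [ct, h]
  simp [cl, h1, Pi.norm_single]

lemma ct_inj {n : ℕ} {w v : Fin n → ℝ} (hw : ‖w‖ ≤ 1) (hv : ‖v‖ ≤ 1) {θ : ℝ} (hθ : 0 < θ)
    (h : ct w = θ • ct v) : w = v ∨ (‖w‖ = 1 ∧ ‖v‖ = 1) := by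
  have h0 : 2 * ‖w‖ - 1 = θ * (2 * ‖v‖ - 1) := by simpa [ct] using congrFun h 0
  have h1 : (1 - ‖w‖) • w = θ • ((1 - ‖v‖) • v) :=
    funext fun j => by simpa [ct] using congrFun h j.succ
  have h2 : (1 - ‖w‖) * ‖w‖ = θ * ((1 - ‖v‖) * ‖v‖) := by
    have := congrArg norm h1
    rwa [norm_smul, norm_smul, norm_smul, Real.norm_of_nonneg (by linarith),
      Real.norm_of_nonneg hθ.le, Real.norm_of_nonneg (by linarith)] at this
  set s := ‖w‖ with hs
  set r := ‖v‖ with hr
  have hs0 : 0 ≤ s := norm_nonneg _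
  have hr0 : 0 ≤ r := norm_nonneg _
  have h3 : (s - r) * ((1 - s) * (1 - r) + s * r) = 0 := by
    linear_combination ((1 - r) * r) * h0 - (2 * r - 1) * h2
  have hsr : s = r := by
    rcases mul_eq_zero.1 h3 with h4 | h4
    · linarith
    · exfalso
      have a1 : 0 ≤ (1 - s) * (1 - r) := mul_nonneg (by linarith) (by linarith)
      have a2 : 0 ≤ s * r := mul_nonneg hs0 hr0
      have b1 : (1 - s) * (1 - r) = 0 := by linarith
      have b2 : s * r = 0 := by linarith
      rcases mul_eq_zero.1 b1 with c1 | c1 <;> rcases mul_eq_zero.1 b2 with c2 | c2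
      · linarith
      · rw [c2] at h0; nlinarith
      · have : r = 1 := by linarith
        rw [c2, this] at h0; nlinarith
      · linarith
  by_cases h5 : s = 1
  · exact Or.inr ⟨h5, hsr ▸ h5⟩
  · left
    have hθ1 : θ = 1 := by
      rw [← hsr] at h0 h2
      by_contra hne
      have d1 : (θ - 1) * (2 * s - 1) = 0 := by linarith
      have d2 : (θ - 1) * ((1 - s) * s) = 0 := by linarith
      have e1 := (mul_eq_zero.1 d1).resolve_left (sub_ne_zero.2 hne)
      have e2 := (mul_eq_zero.1 d2).resolve_left (sub_ne_zero.2 hne)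
      have : s = 1 / 2 := by linarith
      rw [this] at e2; norm_num at e2
    rw [hθ1, one_smul, ← hsr] at h1
    exact smul_right_injective _ (sub_ne_zero.2 (Ne.symm h5)) h1

lemma cl_inj {n : ℕ} {u v : Fin n → I} (h : cl u = cl v) :
    u = v ∨ (‖cw u‖ = 1 ∧ ‖cw v‖ = 1) := by
  have hu := norm_pos_iff.2 (ct_ne (cw u))
  have hv := norm_pos_iff.2 (ct_ne (cw v))
  have h1 : ct (cw u) = (‖ct (cw u)‖ * ‖ct (cw v)‖⁻¹) • ct (cw v) := by
    rw [mul_smul]
    unfold cl at h
    rw [← h, smul_smul, mul_inv_cancel₀ hu.ne', one_smul]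
  rcases ct_inj (norm_cw_le u) (norm_cw_le v) (by positivity) h1 with h2 | h2
  · exact Or.inl (cw_inj h2)
  · exact Or.inr h2

lemma cw_surj {n : ℕ} {w : Fin n → ℝ} (hw : ‖w‖ ≤ 1) : ∃ u : Fin n → I, cw u = w := by
  have : ∀ i, |w i| ≤ 1 := fun i => (norm_le_pi_norm w i).trans hw
  refine ⟨fun i => ⟨(w i + 1) / 2, ?_, ?_⟩, funext fun i => ?_⟩
  · linarith [(abs_le.1 (this i)).1]
  · linarith [(abs_le.1 (this i)).2]
  · simp only [cw]; ring

lemma cl_of_ct {n : ℕ} {x : Fin (n + 1) → ℝ} (hx : ‖x‖ = 1) {w : Fin n → ℝ} (hw : ‖w‖ ≤ 1)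
    {θ : ℝ} (hθ : 0 < θ) (h : ct w = θ • x) : ∃ u, cl u = x := by
  obtain ⟨u, rfl⟩ := cw_surj hw
  refine ⟨u, ?_⟩
  unfold cl
  rw [h, norm_smul, hx, mul_one, Real.norm_of_nonneg hθ.le, smul_smul, inv_mul_cancel₀ hθ.ne',
    one_smul]

lemma cl_surj {n : ℕ} {x : Fin (n + 2) → ℝ} (hx : ‖x‖ = 1) : ∃ u : Fin (n + 1) → I, cl u = x := by
  by_cases h0 : Fin.tail x = 0
  · have hxe : x = Fin.cons (x 0) 0 := by rw [← h0, Fin.cons_self_tail]
    have hx0 : x 0 ≠ 0 := by
      intro h
      rw [h] at hxe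
      have : x = 0 := by
        rw [hxe]; funext i; refine Fin.cases rfl (fun j => rfl) i
      rw [this, norm_zero] at hx; exact zero_ne_one hx
    rcases lt_or_gt_of_ne hx0 with h | h
    · refine cl_of_ct hx (w := 0) (by simp) (θ := (-x 0)⁻¹) (inv_pos.2 (by linarith)) ?_
      funext i
      refine Fin.cases ?_ (fun j => ?_) i
      · simp [ct]; field_simp
      · have := congrFun h0 j
        simp only [Fin.tail, Pi.zero_apply] at this
        simp [ct, this]
    · refine cl_of_ct hx (w := Pi.single 0 1) (by simp [Pi.norm_single]) (θ := (x 0)⁻¹)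
        (inv_pos.2 h) ?_
      funext i
      refine Fin.cases ?_ (fun j => ?_) i
      · simp [ct, Pi.norm_single]; field_simp; norm_num
      · have := congrFun h0 j
        simp only [Fin.tail, Pi.zero_apply] at this
        simp [ct, this, Pi.norm_single]
  · have hpos : 0 < ‖Fin.tail x‖ := norm_pos_iff.2 h0
    set c := ‖Fin.tail x‖ with hc
    have hcont : ContinuousOn (fun s : ℝ => (2 * s - 1) * c - x 0 * ((1 - s) * s)) (Icc 0 1) := by
      fun_prop
    have hiv := intermediate_value_Ioo zero_le_one hcont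
    obtain ⟨s, hs, hs0⟩ := hiv (show (0 : ℝ) ∈ _ from ⟨by simp; linarith, by norm_num; linarith⟩)
    have hn : ‖(s * c⁻¹) • Fin.tail x‖ = s := by
      rw [norm_smul, ← hc, Real.norm_of_nonneg (by have := hs.1; positivity)]
      field_simp
    refine cl_of_ct hx (w := (s * c⁻¹) • Fin.tail x) (by rw [hn]; exact hs.2.le)
      (θ := (1 - s) * s * c⁻¹) (by have := hs.1; have := sub_pos.2 hs.2; positivity) ?_
    funext i
    refine Fin.cases ?_ (fun j => ?_) i
    · simp only [ct, Fin.cons_zero, hn, Pi.smul_apply, smul_eq_mul]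
      simp only at hs0
      field_simp
      linarith
    · simp only [ct, Fin.cons_succ, hn, Pi.smul_apply, smul_eq_mul, Fin.tail]
      ring

/-- A map on a sphere extends to the ball when the homotopy group vanishes. -/
lemma extend_of_pi {n : ℕ} (y0 : Y) (hpi : Subsingleton (π_ (n + 1) Y y0))
    (g : (Fin (n + 2) → ℝ) → Y) (hg : ContinuousOn g (sphere 0 1))
    (hg0 : g (Pi.single 0 1) = y0) :
    ∃ F : (Fin (n + 2) → ℝ) → Y, ContinuousOn F (closedBall 0 1) ∧
      ∀ x ∈ sphere (0 : Fin (n + 2) → ℝ) 1, F x = g x := by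
  classical
  let l : GenLoop (Fin (n + 1)) Y y0 := ⟨⟨fun u => g (cl u), hg.comp_continuous continuous_cl cl_mem⟩,
    fun u hu => by
      show g (cl u) = y0
      rw [cl_boundary ((cw_boundary u).1 hu), hg0]⟩
  have hl : GenLoop.Homotopic l GenLoop.const :=
    Quotient.exact (Subsingleton.elim (α := π_ (n + 1) Y y0) (Quotient.mk _ l)
      (Quotient.mk _ GenLoop.const))
  obtain ⟨H⟩ := hl
  let G : (Fin (n + 2) → ℝ) × I → Y := fun p => H (p.2, Function.invFun cl p.1)
  have hGc : ∀ u t, G (cl u, t) = H (t, u) := by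
    intro u t
    have h1 : cl (Function.invFun cl (cl u) : Fin (n + 1) → I) = cl u :=
      Function.invFun_eq ⟨u, rfl⟩
    rcases cl_inj h1 with h2 | h2
    · simp only [G, h2]
    · simp only [G]
      rw [H.eq_snd t ((cw_boundary _).2 h2.1), H.eq_snd t ((cw_boundary _).2 h2.2)]
      rfl
  have himg : sphere (0 : Fin (n + 2) → ℝ) 1 ×ˢ (univ : Set I) =
      (fun p : (Fin (n + 1) → I) × I => (cl p.1, p.2)) '' univ := by
    ext ⟨x, t⟩
    constructor
    · rintro ⟨hx, -⟩
      obtain ⟨u, rfl⟩ := cl_surj (mem_sphere_zero_iff_norm.1 hx)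
      exact ⟨(u, t), mem_univ _, rfl⟩
    · rintro ⟨⟨u, t'⟩, -, h⟩
      simp only [Prod.mk.injEq] at h
      exact ⟨h.1 ▸ cl_mem u, mem_univ _⟩
  have hG : ContinuousOn G (sphere 0 1 ×ˢ univ) := by
    rw [himg]
    refine continuousOn_of_comp isCompact_univ
      ((continuous_cl.comp continuous_fst).prodMk continuous_snd).continuousOn ?_
    refine Continuous.continuousOn ?_
    exact (H.continuous.comp (continuous_snd.prodMk continuous_fst)).congr
      fun p => (hGc p.1 p.2).symm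
  obtain ⟨F, hF, hF2⟩ := extend_ball y0 G hG (by
    intro x hx
    obtain ⟨u, rfl⟩ := cl_surj (mem_sphere_zero_iff_norm.1 hx)
    rw [hGc]
    exact H.apply_one u)
  refine ⟨F, hF, fun x hx => ?_⟩
  rw [hF2 x hx]
  obtain ⟨u, rfl⟩ := cl_surj (mem_sphere_zero_iff_norm.1 hx)
  rw [hGc]
  exact H.apply_zero u

end Ext

end Pool.Agent.H968Z.Klein
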