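import Mathlib
import Pool.Agent.H968Z.Klein.Sphere
import Pool.Agent.Helper82.BorsukUlam

set_option autoImplicit false

namespace Pool.Agent.H968Z.Klein

open unitInterval Set Metric Topology

variable {Y : Type} [TopologicalSpace Y]

/-- The primitive of the pulled back cocycle on a ball. -/
def lam {V : Type} [SMul ℝ V] (ω : (I → Y) → ZMod 2) (F : V → Y) (x : V) : ZMod 2 :=
  ω (fun t => F ((t : ℝ) • x))

lemma lam_path {n : ℕ} {ω : (I → Y) → ZMod 2} (hω : Coc ω) {F : (Fin n → ℝ) → Y}
    (hF : ContinuousOn F (closedBall 0 1)) (γ : I → (Fin n → ℝ)) (hγ : Continuous γ)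
    (hm : ∀ s, ‖γ s‖ ≤ 1) : ω (F ∘ γ) = lam ω F (γ 0) + lam ω F (γ 1) := by
  have hΦc : Continuous (fun p : I × I => F ((p.1 : ℝ) • γ p.2)) := by
    refine hF.comp_continuous ((continuous_subtype_val.comp continuous_fst).smul
      (hγ.comp continuous_snd)) fun p => ?_
    rw [mem_closedBall_zero_iff, norm_smul, Real.norm_of_nonneg p.1.2.1]
    have := p.1.2.2
    have := p.1.2.1
    nlinarith [norm_nonneg (γ p.2), hm p.2]
  have hsq := hω.sq (fun t s => F ((t : ℝ) • γ s)) hΦc
  have e0 : (fun s => F (((0 : I) : ℝ) • γ s)) = fun _ => F 0 := by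
    funext s; simp
  have e1 : (fun s => F (((1 : I) : ℝ) • γ s)) = F ∘ γ := by
    funext s; simp
  simp only [e0, e1, hω.const, zero_add] at hsq
  exact hsq

lemma sphere_path {n : ℕ} {a b : Fin (n + 2) → ℝ} (ha : ‖a‖ = 1) (hb : ‖b‖ = 1) :
    ∃ γ : I → (Fin (n + 2) → ℝ), Continuous γ ∧ γ 0 = a ∧ γ 1 = b ∧ ∀ s, ‖γ s‖ = 1 := by
  have h := isPathConnected_sphere (E := Fin (n + 2) → ℝ) (by
    rw [rank_fun']; simp only [Fintype.card_fin]; exact_mod_cast (by omega : 1 < n + 2))
    0 zero_le_one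
  obtain ⟨γ, hγ⟩ := h.joinedIn a (mem_sphere_zero_iff_norm.2 ha) b (mem_sphere_zero_iff_norm.2 hb)
  exact ⟨γ, γ.continuous, γ.source, γ.target, fun s => mem_sphere_zero_iff_norm.1 (hγ s)⟩

/-- The data of an even map of a sphere that extends to the ball and is essential for `ω`. -/
def Stage (ω : (I → Y) → ZMod 2) (y0 : Y) (n : ℕ) : Prop :=
  ∃ F : (Fin (n + 2) → ℝ) → Y, ContinuousOn F (closedBall 0 1) ∧
    (∀ x, ‖x‖ = 1 → F (-x) = F x) ∧ F (Pi.single 0 1) = y0 ∧
    ∃ a, ‖a‖ = 1 ∧ lam ω F a + lam ω F (-a) = 1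

lemma norm_init_le {n : ℕ} (z : Fin (n + 1) → ℝ) : ‖Fin.init z‖ ≤ ‖z‖ :=
  (pi_norm_le_iff_of_nonneg (norm_nonneg _)).2 fun i => norm_le_pi_norm z _

lemma norm_le_init {n : ℕ} (z : Fin (n + 1) → ℝ) (h : z (Fin.last n) = 0) :
    ‖z‖ ≤ ‖Fin.init z‖ := by
  refine (pi_norm_le_iff_of_nonneg (norm_nonneg _)).2 fun i => ?_
  refine Fin.lastCases ?_ (fun j => ?_) i
  · rw [h]; simp
  · exact norm_le_pi_norm (Fin.init z) j

lemma continuous_init {n : ℕ} : Continuous (fun z : Fin (n + 1) → ℝ => Fin.init z) :=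
  continuous_pi fun i => continuous_apply _

lemma Stage.succ {ω : (I → Y) → ZMod 2} (hω : Coc ω) {y0 : Y} {n : ℕ}
    (hpi : Subsingleton (π_ (n + 2) Y y0)) (h : Stage ω y0 n) : Stage ω y0 (n + 1) := by
  classical
  obtain ⟨F, hF, hev, h0, a, ha, hlam⟩ := h
  let g : (Fin (n + 3) → ℝ) → Y := fun z =>
    if 0 ≤ z (Fin.last _) then F ((1 - z (Fin.last _)) • Fin.init z)
    else F (-((1 + z (Fin.last _)) • Fin.init z))
  have hlast : ∀ z : Fin (n + 3) → ℝ, ‖z‖ = 1 → |z (Fin.last _)| ≤ 1 := fun z hz =>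
    hz ▸ norm_le_pi_norm z _
  have hneg : ∀ z : Fin (n + 3) → ℝ, ‖z‖ = 1 → z (Fin.last _) ≤ 0 →
      g z = F (-((1 + z (Fin.last _)) • Fin.init z)) := by
    intro z hz hle
    by_cases h1 : 0 ≤ z (Fin.last _)
    · have h2 : z (Fin.last _) = 0 := le_antisymm hle h1
      simp only [g, h1, if_true, h2, sub_zero, add_zero, one_smul, le_refl]
      rw [hev _ (le_antisymm (hz ▸ norm_init_le z) (hz ▸ norm_le_init z h2))]
    · simp only [g, h1, if_false]
  have hg : ContinuousOn g (sphere 0 1) := by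
    have h1 : sphere (0 : Fin (n + 3) → ℝ) 1 =
        (sphere 0 1 ∩ {z | 0 ≤ z (Fin.last _)}) ∪ (sphere 0 1 ∩ {z | z (Fin.last _) ≤ 0}) := by
      rw [← inter_union_distrib_left]
      refine (inter_eq_left.2 fun z _ => ?_).symm
      exact le_total (0 : ℝ) (z (Fin.last _))
    rw [h1]
    refine ContinuousOn.union_of_isClosed ?_ ?_
      (isClosed_sphere.inter (isClosed_le continuous_const (continuous_apply _)))
      (isClosed_sphere.inter (isClosed_le (continuous_apply _) continuous_const))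
    · refine ContinuousOn.congr (f := fun z => F ((1 - z (Fin.last _)) • Fin.init z)) ?_ ?_
      · refine hF.comp ((continuous_const.sub (continuous_apply _)).smul
          continuous_init).continuousOn ?_
        rintro z ⟨hz, hz2⟩
        have hz1 := mem_sphere_zero_iff_norm.1 hz
        have h2 := abs_le.1 (hlast z hz1)
        have h3 := norm_init_le z
        simp only [mem_ofPred_eq] at hz2
        rw [mem_closedBall_zero_iff, norm_smul, Real.norm_of_nonneg (by linarith)]
        nlinarith [norm_nonneg (Fin.init z)]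
      · rintro z ⟨-, hz2⟩
        simp only [mem_ofPred_eq] at hz2
        simp only [g, hz2, if_true]
    · refine ContinuousOn.congr (f := fun z => F (-((1 + z (Fin.last _)) • Fin.init z))) ?_ ?_
      · refine hF.comp ((continuous_const.add (continuous_apply _)).smul
          continuous_init).neg.continuousOn ?_
        rintro z ⟨hz, hz2⟩
        have hz1 := mem_sphere_zero_iff_norm.1 hz
        have h2 := abs_le.1 (hlast z hz1)
        have h3 := norm_init_le z
        simp only [mem_ofPred_eq] at hz2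
        rw [mem_closedBall_zero_iff, norm_neg, norm_smul, Real.norm_of_nonneg (by linarith)]
        nlinarith [norm_nonneg (Fin.init z)]
      · rintro z ⟨hz, hz2⟩
        exact hneg z (mem_sphere_zero_iff_norm.1 hz) hz2
  have hsn : ∀ x : Fin (n + 2) → ℝ, g (Fin.snoc x 0) = F x := by
    intro x
    simp [g]
  have he : (Pi.single 0 1 : Fin (n + 3) → ℝ) = Fin.snoc (Pi.single 0 1 : Fin (n + 2) → ℝ) 0 := by
    funext i
    refine Fin.lastCases ?_ (fun j => ?_) i
    · rw [Fin.snoc_last, Pi.single_eq_of_ne (Fin.last_pos.ne')]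
    · rw [Fin.snoc_castSucc]
      simp [Pi.single_apply]
  obtain ⟨F', hF', hF'g⟩ := extend_of_pi y0 hpi g hg (by rw [he, hsn, h0])
  have hnsn : ∀ x : Fin (n + 2) → ℝ, ‖(Fin.snoc x 0 : Fin (n + 3) → ℝ)‖ = ‖x‖ := by
    intro x
    have h1 := norm_init_le (Fin.snoc x 0 : Fin (n + 3) → ℝ)
    have h2 := norm_le_init (Fin.snoc x 0 : Fin (n + 3) → ℝ) (by simp)
    rw [Fin.init_snoc] at h1 h2
    exact le_antisymm h2 h1
  refine ⟨F', hF', ?_, ?_, Fin.snoc a 0, by rw [hnsn, ha], ?_⟩
  · intro z hz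
    rw [hF'g z (mem_sphere_zero_iff_norm.2 hz),
      hF'g (-z) (mem_sphere_zero_iff_norm.2 (by rw [norm_neg, hz]))]
    have hi : Fin.init (-z) = -Fin.init z := rfl
    rcases le_total 0 (z (Fin.last _)) with h1 | h1
    · rw [hneg (-z) (by rw [norm_neg, hz]) (by simpa using h1)]
      simp only [g, h1, if_true, hi, Pi.neg_apply, smul_neg, neg_neg, sub_eq_add_neg]
    · rw [hneg z hz h1]
      have : 0 ≤ (-z) (Fin.last _) := by simpa using h1
      simp only [g, this, if_true, hi]
      simp only [Pi.neg_apply, smul_neg, sub_neg_eq_add]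
  · rw [hF'g _ (by simp [Pi.norm_single]), he, hsn, h0]
  · obtain ⟨γ, hγ, hγ0, hγ1, hγn⟩ := sphere_path ha (b := -a) (by rw [norm_neg, ha])
    have hc : Continuous fun s => (Fin.snoc (γ s) 0 : Fin (n + 3) → ℝ) := by
      refine continuous_pi fun i => ?_
      refine Fin.lastCases ?_ (fun j => ?_) i
      · simp only [Fin.snoc_last]; exact continuous_const
      · simp only [Fin.snoc_castSucc]; exact (continuous_apply j).comp hγ
    have h1 := lam_path hω hF' _ hc (fun s => by rw [hnsn, hγn])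
    have h2 := lam_path hω hF γ hγ (fun s => (hγn s).le)
    have h3 : (F' ∘ fun s => (Fin.snoc (γ s) 0 : Fin (n + 3) → ℝ)) = F ∘ γ := by
      funext s
      simp only [Function.comp]
      rw [hF'g _ (mem_sphere_zero_iff_norm.2 (by rw [hnsn, hγn])), hsn]
    have h4 : (Fin.snoc (-a) 0 : Fin (n + 3) → ℝ) = -Fin.snoc a 0 := by
      funext i
      refine Fin.lastCases ?_ (fun j => ?_) i <;> simp
    rw [h3, h2, hγ0, hγ1, hlam, h4] at h1
    exact h1.symm

lemma Stage.zero {ω : (I → Y) → ZMod 2} (hω : Coc ω) {y0 : Y} (s : Path y0 y0)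
    (hs : s.Homotopic s.symm) (hωs : ω s = 1) : Stage ω y0 0 := by
  obtain ⟨H⟩ := hs
  let r : ℝ → I := fun x => projIcc 0 1 zero_le_one ((x + 1) / 2)
  have hr : Continuous r := continuous_projIcc.comp (by fun_prop)
  have hr1 : r 1 = 1 := by simp [r]
  have hrm : r (-1) = 0 := by simp [r]
  have hrneg : ∀ x, |x| ≤ 1 → r (-x) = σ (r x) := by
    intro x hx
    have := abs_le.1 hx
    have h1 : (x + 1) / 2 ∈ Icc (0 : ℝ) 1 := ⟨by linarith, by linarith⟩
    have h2 : (-x + 1) / 2 ∈ Icc (0 : ℝ) 1 := ⟨by linarith, by linarith⟩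
    simp only [r, projIcc_of_mem _ h1, projIcc_of_mem _ h2]
    ext; simp only [coe_symm_eq]; ring
  let F : (Fin 2 → ℝ) → Y := fun z => H (r (z 1), r (z 0))
  have hF : Continuous F :=
    H.continuous.comp ((hr.comp (continuous_apply 1)).prodMk (hr.comp (continuous_apply 0)))
  have hH0 : ∀ u, H (0, u) = s u := fun u => H.apply_zero u
  have hH1 : ∀ u, H (1, u) = s (σ u) := fun u => H.apply_one u
  refine ⟨F, hF.continuousOn, ?_, ?_, ![-1, -1], ?_, ?_⟩
  · intro x hx
    have h0 : |x 0| ≤ 1 := hx ▸ norm_le_pi_norm x 0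
    obtain ⟨i, hi⟩ : ∃ i, 1 ≤ ‖x i‖ := by
      by_contra hlt
      push Not at hlt
      have := (pi_norm_lt_iff zero_lt_one).2 hlt
      linarith
    have hi1 : |x i| = 1 := le_antisymm (hx ▸ norm_le_pi_norm x i) hi
    have hi2 : x i = 1 ∨ x i = -1 := by
      rcases abs_eq (zero_le_one) |>.1 hi1 with h | h
      · exact Or.inl h
      · exact Or.inr h
    fin_cases i
    · simp only [Fin.zero_eta] at hi2
      rcases hi2 with h | h
      · simp only [F, Pi.neg_apply, h, hr1, hrm, H.source, H.target]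
      · simp only [F, Pi.neg_apply, h, neg_neg, hr1, hrm, H.source, H.target]
    · simp only [Fin.mk_one] at hi2
      rcases hi2 with h | h
      · simp only [F, Pi.neg_apply, h, hr1, hrm, hH0, hH1, hrneg _ h0]
      · simp only [F, Pi.neg_apply, h, neg_neg, hr1, hrm, hH0, hH1, hrneg _ h0, symm_symm]
  · simp only [F, Pi.single_eq_same, hr1, H.target]
  · refine le_antisymm ((pi_norm_le_iff_of_nonneg zero_le_one).2 fun i => ?_) ?_
    · fin_cases i <;> simp
    · simpa using norm_le_pi_norm (![-1, -1] : Fin 2 → ℝ) 0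
  · have hb : ∀ u : I, |2 * (u : ℝ) - 1| ≤ 1 := by
      intro u
      have := u.2.1
      have := u.2.2
      rw [abs_le]; constructor <;> linarith
    have hru : ∀ u : I, r (2 * (u : ℝ) - 1) = u := by
      intro u
      have : (2 * (u : ℝ) - 1 + 1) / 2 = u := by ring
      simp only [r, this, projIcc_val]
    have h1 := lam_path hω hF.continuousOn (fun u : I => (![2 * (u : ℝ) - 1, -1] : Fin 2 → ℝ))
      (by
        refine continuous_pi fun i => ?_
        fin_cases i
        · simp only [Fin.zero_eta, Matrix.cons_val_zero]; fun_prop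
        · simp only [Fin.mk_one, Matrix.cons_val_one, Matrix.cons_val_zero]; fun_prop)
      (fun u => (pi_norm_le_iff_of_nonneg zero_le_one).2 fun i => by
        fin_cases i
        · simpa using hb u
        · simp)
    have h2 := lam_path hω hF.continuousOn (fun u : I => (![1, 2 * (u : ℝ) - 1] : Fin 2 → ℝ))
      (by
        refine continuous_pi fun i => ?_
        fin_cases i
        · simp only [Fin.zero_eta, Matrix.cons_val_zero]; fun_prop
        · simp only [Fin.mk_one, Matrix.cons_val_one, Matrix.cons_val_zero]; fun_prop)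
      (fun u => (pi_norm_le_iff_of_nonneg zero_le_one).2 fun i => by
        fin_cases i
        · simp
        · simpa using hb u)
    have e1 : (F ∘ fun u : I => (![2 * (u : ℝ) - 1, -1] : Fin 2 → ℝ)) = s := by
      funext u
      simp only [Function.comp, F, Matrix.cons_val_one, Matrix.cons_val_zero, hrm, hru, hH0]
    have e2 : (F ∘ fun u : I => (![1, 2 * (u : ℝ) - 1] : Fin 2 → ℝ)) = fun _ => y0 := by
      funext u
      simp only [Function.comp, F, Matrix.cons_val_zero, hr1, H.target]
    rw [e1, hωs] at h1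
    rw [e2, hω.const] at h2
    have e3 : (-![-1, -1] : Fin 2 → ℝ) = ![1, 1] := by
      funext i; fin_cases i <;> simp
    rw [e3]
    norm_num at h1 h2
    generalize lam ω F ![-1, -1] = A at *
    generalize lam ω F ![1, -1] = B at *
    generalize lam ω F ![1, 1] = C at *
    revert A B C; decide

theorem not_dom_of_coc {ω : (I → Y) → ZMod 2} (hω : Coc ω) {y0 : Y} (s : Path y0 y0)
    (hs : s.Homotopic s.symm) (hωs : ω s = 1)
    (hpi : ∀ n, 2 ≤ n → Subsingleton (π_ n Y y0))
    {K : Type} [TopologicalSpace K] [T2Space K] [CWComplex (univ : Set K)]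
    [RelCWComplex.Finite (univ : Set K)] (i : C(Y, K)) (r : C(K, Y))
    (hri : (r.comp i).Homotopic (ContinuousMap.id Y)) : False := by
  classical
  have hst : ∀ n, Stage ω y0 n := by
    intro n
    induction n with
    | zero => exact Stage.zero hω s hs hωs
    | succ n ih => exact ih.succ hω (hpi _ (by omega))
  have := compact_of_cw (K := K)
  have hωK := hω.comp r r.continuous
  have hLE := lex_of_cw hωK
  choose! U hU hxU ε hε using hLE
  obtain ⟨ρ, hρ⟩ := PartitionOfUnity.exists_isSubordinate (s := (univ : Set K)) isClosed_univ U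
    (fun x => hU x (mem_univ x)) (fun x _ => mem_iUnion.2 ⟨x, hxU x (mem_univ x)⟩)
  have hfin : {k | (Function.support (ρ k)).Nonempty}.Finite :=
    ρ.locallyFinite.finite_nonempty_of_compact
  obtain ⟨m, e, he⟩ : ∃ (m : ℕ) (e : Fin (m + 1) → K), ∀ k, (Function.support (ρ k)).Nonempty →
      ∃ j, e j = k := by
    obtain ⟨m, f, hf⟩ := hfin.fin_embedding
    refine ⟨m, Fin.cons (i y0) f, fun k hk => ?_⟩
    have : k ∈ range f := by rw [hf]; exact hk
    obtain ⟨j, hj⟩ := this
    exact ⟨j.succ, by simpa using hj⟩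
  obtain ⟨F, hF, hev, -, a, ha, hlam⟩ := hst m
  obtain ⟨H⟩ := hri
  let η : Y → ZMod 2 := fun y => ω (fun t => H (t, y))
  let μ : (Fin (m + 2) → ℝ) → ZMod 2 := fun x => lam ω F x + η (F x)
  have hμ : ∀ γ : I → (Fin (m + 2) → ℝ), Continuous γ → (∀ s, ‖γ s‖ ≤ 1) →
      ω (r ∘ (i ∘ F ∘ γ)) = μ (γ 0) + μ (γ 1) := by
    intro γ hγ hm
    have hc : Continuous (F ∘ γ) := hF.comp_continuous hγ fun s => mem_closedBall_zero_iff.2 (hm s)
    have hsq := hω.sq (fun t s => H (t, F (γ s)))
      (H.continuous.comp (continuous_fst.prodMk (hc.comp continuous_snd)))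
    have e0 : (fun s => H (0, F (γ s))) = r ∘ (i ∘ F ∘ γ) := funext fun s => H.apply_zero _
    have e1 : (fun s => H (1, F (γ s))) = F ∘ γ := funext fun s => H.apply_one _
    simp only [e0, e1] at hsq
    exact z2_move2 hsq (lam_path hω hF γ hγ hm)
  have hodd : ∀ x, ‖x‖ = 1 → μ (-x) = μ x + 1 := by
    intro x hx
    obtain ⟨γ, hγ, hγ0, hγ1, hγn⟩ := sphere_path ha hx
    have h1 := lam_path hω hF γ hγ (fun s => (hγn s).le)
    have h2 := lam_path hω hF (fun s => -γ s) hγ.neg (fun s => by rw [norm_neg]; exact (hγn s).le)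
    have h3 : (F ∘ fun s => -γ s) = F ∘ γ := funext fun s => hev _ (hγn s)
    rw [h3, h1, hγ0, hγ1] at h2
    simp only [μ, hev x hx]
    generalize lam ω F a = A at *
    generalize lam ω F (-a) = B at *
    generalize lam ω F x = C at *
    generalize lam ω F (-x) = D at *
    generalize η (F x) = E at *
    revert A B C D E; decide
  let sgn : ZMod 2 → ℝ := fun c => if c = 0 then 1 else -1
  have hsgn : ∀ c, sgn (c + 1) = -sgn c := by
    intro c
    have : c = 0 ∨ c = 1 := by revert c; decide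
    rcases this with rfl | rfl
    · simp [sgn]
    · have : (1 + 1 : ZMod 2) = 0 := by decide
      simp [sgn, this]
  have hsgn0 : ∀ c, sgn c ≠ 0 := by
    intro c; simp only [sgn]; split_ifs <;> norm_num
  have hsgn1 : ∀ c, |sgn c| = 1 := by
    intro c; simp only [sgn]; split_ifs <;> norm_num
  -- the odd map on the sphere
  let T : (Fin (m + 2) → ℝ) → Fin (m + 1) → ℝ := fun x j =>
    ρ (e j) (i (F x)) * sgn (ε (e j) (i (F x)) + μ x)
  have hiF : ContinuousOn (fun x => i (F x)) (closedBall 0 1) :=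
    i.continuous.comp_continuousOn hF
  have hT : ContinuousOn T (closedBall 0 1) := by
    refine continuousOn_pi.2 fun j => ?_
    intro x hx
    by_cases hxj : i (F x) ∈ U (e j)
    · obtain ⟨δ, hδ, hδ2⟩ := Metric.mem_nhdsWithin_iff.1
        ((hiF x hx).preimage_mem_nhdsWithin ((hU _ (mem_univ _)).mem_nhds hxj))
      have hloc : ∀ x' ∈ ball x δ ∩ closedBall 0 1,
          ε (e j) (i (F x')) + μ x' = ε (e j) (i (F x)) + μ x := by
        intro x' hx'
        have hconv : Convex ℝ (ball x δ ∩ closedBall (0 : Fin (m + 2) → ℝ) 1) :=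
          (convex_ball _ _).inter (convex_closedBall _ _)
        let γ : I → (Fin (m + 2) → ℝ) := fun t => (1 - (t : ℝ)) • x + (t : ℝ) • x'
        have hγ : Continuous γ := by
          simp only [γ]; fun_prop
        have hγm : ∀ t, γ t ∈ ball x δ ∩ closedBall (0 : Fin (m + 2) → ℝ) 1 := fun t =>
          hconv ⟨mem_ball_self hδ, hx⟩ hx' (by linarith [t.2.2]) t.2.1 (by ring)
        have h1 := hμ γ hγ fun t => mem_closedBall_zero_iff.1 (hγm t).2
        have h2 := hε (e j) (mem_univ _) (i ∘ F ∘ γ)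
          (hiF.comp_continuous hγ fun t => (hγm t).2) fun t => ⟨mem_univ _, hδ2 (hγm t)⟩
        have g0 : γ 0 = x := by simp [γ]
        have g1 : γ 1 = x' := by simp [γ]
        simp only [Function.comp_apply, g0, g1] at h1 h2
        rw [h1] at h2
        clear h1
        generalize μ x = A at *
        generalize μ x' = B at *
        generalize ε (e j) (i (F x)) = C at *
        generalize ε (e j) (i (F x')) = D at *
        revert A B C D; decide
      refine ContinuousWithinAt.congr_of_eventuallyEq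
        (f := fun x' => ρ (e j) (i (F x')) * sgn (ε (e j) (i (F x)) + μ x)) ?_ ?_ rfl
      · exact (((ρ (e j)).continuous.comp_continuousOn hiF) x hx).mul continuousWithinAt_const
      · filter_upwards [inter_mem_nhdsWithin _ (ball_mem_nhds x hδ)] with x' hx'
        simp only [T, hloc x' ⟨hx'.2, hx'.1⟩]
    · have hns : i (F x) ∈ (tsupport (ρ (e j)))ᶜ := fun h => hxj (hρ _ h)
      have hev0 := (hiF x hx).preimage_mem_nhdsWithin
        ((isClosed_tsupport _).isOpen_compl.mem_nhds hns)
      refine ContinuousWithinAt.congr_of_eventuallyEq (f := fun _ => (0 : ℝ))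
        continuousWithinAt_const ?_ ?_
      · filter_upwards [hev0] with x' hx'
        simp only [T, image_eq_zero_of_notMem_tsupport hx', zero_mul]
      · simp only [T, image_eq_zero_of_notMem_tsupport hns, zero_mul]
  have hTodd : ∀ x, ‖x‖ = 1 → T (-x) = -T x := by
    intro x hx
    funext j
    simp only [T, hev x hx, hodd x hx, Pi.neg_apply, ← add_assoc, hsgn, mul_neg]
  have hTne : ∀ x, T x ≠ 0 := by
    intro x h
    obtain ⟨k, hk⟩ := ρ.exists_pos (mem_univ (i (F x)))
    obtain ⟨j, rfl⟩ := he k ⟨_, hk.ne'⟩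
    have := congrFun h j
    simp only [T, Pi.zero_apply] at this
    rcases mul_eq_zero.1 this with h1 | h1
    · exact hk.ne' h1
    · exact hsgn0 _ h1
  have hTb : ∀ x, ‖T x‖ ≤ 1 := by
    intro x
    refine (pi_norm_le_iff_of_nonneg zero_le_one).2 fun j => ?_
    simp only [T, Real.norm_eq_abs, abs_mul, hsgn1, mul_one]
    rw [abs_of_nonneg (ρ.nonneg _ _)]
    exact ρ.le_one _ _
  let S : (Fin (m + 2) → ℝ) → Fin (m + 1) → ℝ := fun x => ‖x‖ • T (‖x‖⁻¹ • x)
  have hnrm : ∀ x : Fin (m + 2) → ℝ, x ≠ 0 → ‖‖x‖⁻¹ • x‖ = 1 := by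
    intro x hx
    have := norm_ne_zero_iff.2 hx
    simp [norm_smul, this]
  have hS : Continuous S := by
    rw [continuous_iff_continuousAt]
    intro x
    by_cases hx : x = 0
    · subst hx
      have h0 : S 0 = 0 := by simp [S]
      rw [ContinuousAt, h0]
      refine squeeze_zero_norm (a := fun x => ‖x‖) (fun x => ?_) (by
        simpa using (continuous_norm.tendsto (0 : Fin (m + 2) → ℝ)))
      simp only [S, norm_smul, norm_norm]
      exact mul_le_of_le_one_right (norm_nonneg _) (hTb _)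
    · have h1 : ContinuousOn (fun x : Fin (m + 2) → ℝ => T (‖x‖⁻¹ • x)) {0}ᶜ := by
        refine hT.comp ((continuous_norm.continuousOn.inv₀ fun y hy =>
          norm_ne_zero_iff.2 hy).smul continuousOn_id) fun y hy => ?_
        exact mem_closedBall_zero_iff.2 (hnrm y hy).le
      exact continuous_norm.continuousAt.smul
        (h1.continuousAt (isOpen_compl_singleton.mem_nhds hx))
  obtain ⟨x, hxK, hx⟩ := Pool.Agent.Helper82.BorsukUlam.borsuk_ulam (m + 1) S hS (by
    intro x
    by_cases hx : x = 0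
    · subst hx; simp [S]
    · simp only [S, norm_neg, smul_neg]
      rw [hTodd _ (hnrm x hx), smul_neg])
  have hx0 : x ≠ 0 := by
    rintro rfl
    simp [Pool.Agent.Helper82.BorsukUlam.K] at hxK
  rcases smul_eq_zero.1 hx with h | h
  · exact hx0 (norm_eq_zero.1 h)
  · exact hTne _ h

end Pool.Agent.H968Z.Klein
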