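import Mathlib
import Pool.Agent.H968Z.Klein.Defs
import Pool.Agent.H968Z.Klein.NotDom

set_option autoImplicit false

namespace Pool.Agent.H968Z.Klein

open unitInterval Set Metric Topology

variable {Y : Type} [TopologicalSpace Y]

/-- The value of a character of the fundamental group on a path class. -/
noncomputable def wq [PathConnectedSpace Y] {y0 : Y}
    (ρ : FundamentalGroup Y y0 →* Multiplicative (ZMod 2)) {a b : Y}
    (q : Path.Homotopic.Quotient a b) : ZMod 2 :=
  Multiplicative.toAdd (ρ (FundamentalGroup.fromPath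
    (((Path.Homotopic.Quotient.mk (PathConnectedSpace.somePath y0 a)).trans q).trans
      (Path.Homotopic.Quotient.mk (PathConnectedSpace.somePath y0 b)).symm)))

lemma wq_trans [PathConnectedSpace Y] {y0 : Y}
    (ρ : FundamentalGroup Y y0 →* Multiplicative (ZMod 2)) {a b c : Y}
    (q : Path.Homotopic.Quotient a b) (q' : Path.Homotopic.Quotient b c) :
    wq ρ (q.trans q') = wq ρ q + wq ρ q' := by
  unfold wq
  rw [add_comm, ← toAdd_mul, ← map_mul]
  congr 2
  rw [FundamentalGroup.mul_def]
  simp only [FundamentalGroup.fromPath, FundamentalGroup.fromArrow,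
    Path.Homotopic.Quotient.trans_assoc]
  rw [← Path.Homotopic.Quotient.trans_assoc (Path.Homotopic.Quotient.symm _),
    Path.Homotopic.Quotient.symm_trans, Path.Homotopic.Quotient.refl_trans]

lemma wq_refl [PathConnectedSpace Y] {y0 : Y}
    (ρ : FundamentalGroup Y y0 →* Multiplicative (ZMod 2)) (a : Y) :
    wq ρ (Path.Homotopic.Quotient.refl a) = 0 := by
  have := wq_trans ρ (Path.Homotopic.Quotient.refl a) (Path.Homotopic.Quotient.refl a)
  rw [Path.Homotopic.Quotient.refl_trans] at this
  simpa using this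

lemma wq_loop [PathConnectedSpace Y] {y0 : Y}
    (ρ : FundamentalGroup Y y0 →* Multiplicative (ZMod 2)) (q : FundamentalGroup Y y0) :
    wq ρ q.toPath = Multiplicative.toAdd (ρ q) := by
  unfold wq
  congr 1
  set p : FundamentalGroup Y y0 :=
    FundamentalGroup.fromPath (Path.Homotopic.Quotient.mk (PathConnectedSpace.somePath y0 y0))
  have : ρ (p⁻¹ * (q * p)) = ρ q := by
    rw [map_mul, map_mul, map_inv, mul_comm (ρ q), inv_mul_cancel_left]
  exact this

open Classical in
/-- The cocycle of a character of the fundamental group. -/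
noncomputable def om [PathConnectedSpace Y] {y0 : Y}
    (ρ : FundamentalGroup Y y0 →* Multiplicative (ZMod 2)) (γ : I → Y) : ZMod 2 :=
  if h : Continuous γ then
    wq ρ (Path.Homotopic.Quotient.mk (⟨⟨γ, h⟩, rfl, rfl⟩ : Path (γ 0) (γ 1))) else 0

lemma om_path [PathConnectedSpace Y] {y0 : Y}
    (ρ : FundamentalGroup Y y0 →* Multiplicative (ZMod 2)) {a b : Y} (p : Path a b) :
    om ρ p = wq ρ (Path.Homotopic.Quotient.mk p) := by
  obtain ⟨⟨γ, h⟩, rfl, rfl⟩ := p
  unfold om
  exact dif_pos h

lemma coc_om [PathConnectedSpace Y] {y0 : Y}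
    (ρ : FundamentalGroup Y y0 →* Multiplicative (ZMod 2)) : Coc (om ρ) where
  const z := by
    have := om_path ρ (Path.refl z)
    rw [Path.Homotopic.Quotient.mk_refl, wq_refl] at this
    exact this
  sq Φ hΦ := by
    have : ContractibleSpace I := (convex_Icc (0 : ℝ) 1).contractibleSpace ⟨0, by simp⟩
    let B : Path ((0 : I), (0 : I)) ((0 : I), (1 : I)) :=
      ⟨⟨fun s => (0, s), by fun_prop⟩, rfl, rfl⟩
    let T : Path ((1 : I), (0 : I)) ((1 : I), (1 : I)) :=
      ⟨⟨fun s => (1, s), by fun_prop⟩, rfl, rfl⟩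
    let L : Path ((0 : I), (0 : I)) ((1 : I), (0 : I)) :=
      ⟨⟨fun s => (s, 0), by fun_prop⟩, rfl, rfl⟩
    let R : Path ((0 : I), (1 : I)) ((1 : I), (1 : I)) :=
      ⟨⟨fun s => (s, 1), by fun_prop⟩, rfl, rfl⟩
    let f : C(I × I, Y) := ⟨_, hΦ⟩
    have h1 := (SimplyConnectedSpace.paths_homotopic (B.trans R) (L.trans T)).map f
    rw [Path.map_trans, Path.map_trans] at h1
    have h2 := congrArg (wq ρ) (Path.Homotopic.Quotient.eq.2 h1)
    rw [Path.Homotopic.Quotient.mk_trans, Path.Homotopic.Quotient.mk_trans, wq_trans, wq_trans,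
      ← om_path, ← om_path, ← om_path, ← om_path] at h2
    change om ρ (Φ 0) + om ρ (fun t => Φ t 1) = om ρ (fun t => Φ t 0) + om ρ (Φ 1) at h2
    generalize om ρ (Φ 0) = A at *
    generalize om ρ (Φ 1) = B at *
    generalize om ρ (fun t => Φ t 0) = C at *
    generalize om ρ (fun t => Φ t 1) = D at *
    clear h1
    revert A B C D; decide

/-- If `Q` has an element of order two detected by a character of order two, then no `K(Q,1)` is
finitely dominated. -/
theorem not_finitelyDominated {Q : Type} [Group Q] (χ : Q →* Multiplicative (ZMod 2)) (g : Q)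
    (hg : g * g = 1) (hχ : Multiplicative.toAdd (χ g) = 1) (y0 : Y) (hY : IsKPiOne Q Y y0) :
    ¬ FinitelyDominated Y := by
  rintro ⟨K, _, ⟨_, _, _⟩, i, r, hri⟩
  obtain ⟨_, ⟨e⟩, hpi⟩ := hY
  let ρ := χ.comp e.toMonoidHom
  obtain ⟨s, hs⟩ := Path.Homotopic.Quotient.mk_surjective (e.symm g).toPath
  refine not_dom_of_coc (coc_om ρ) s ?_ ?_ hpi i r hri
  · rw [← Path.Homotopic.Quotient.eq, Path.Homotopic.Quotient.mk_symm, hs]
    have : e.symm g = (e.symm g)⁻¹ := by
      rw [← map_inv]; congr 1
      exact eq_inv_of_mul_eq_one_left hg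
    exact this
  · rw [om_path, hs, wq_loop]
    simpa [ρ] using hχ

end Pool.Agent.H968Z.Klein
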