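import Mathlib
import Pool.Agent.H968Z.Klein.Bottle
import Pool.Agent.H968Z.Klein.Tors

set_option autoImplicit false

namespace Pool.Agent.H968Z.Klein

open Set Metric Topology

/-- The affine expansion of the plane. -/
noncomputable def aff : ℝ × ℝ ≃ₜ ℝ × ℝ where
  toFun p := (3 * p.1 + 1 / 2, p.2)
  invFun p := ((p.1 - 1 / 2) / 3, p.2)
  left_inv p := by ext <;> simp
  right_inv p := by
    ext
    · simp only; ring
    · rfl
  continuous_toFun := by fun_prop
  continuous_invFun := by fun_prop

/-- The endomorphism of the Klein bottle group given by conjugation with `aff`. -/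
def phi (g : KG) : KG := ⟨3 * g.n + g.k % 2, g.k⟩

lemma aff_smul (g : KG) (p : ℝ × ℝ) : aff (g • p) = phi g • aff p := by
  ext
  · show 3 * ((sgk g.k : ℝ) * p.1 + g.n) + 1 / 2 =
      (sgk g.k : ℝ) * (3 * p.1 + 1 / 2) + ((3 * g.n + g.k % 2 : ℤ) : ℝ)
    unfold sgk
    push_cast
    ring
  · rfl

/-- The self-covering of the Klein bottle. -/
noncomputable def qq : C(KB, KB) where
  toFun := Quotient.lift (fun p => pr (aff p)) (by
    rintro a b ⟨g, rfl⟩
    show pr (aff (g • b)) = pr (aff b)
    rw [aff_smul, pr_smul])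
  continuous_toFun := (continuous_pr.comp aff.continuous).quotient_lift _

lemma qq_pr (p : ℝ × ℝ) : qq (pr p) = pr (aff p) := rfl

lemma qq_cover : IsCoveringMap qq := by
  obtain ⟨_, _, _⟩ := isFiniteCW_KB
  have := compact_of_cw (K := KB)
  rw [← isLocalHomeomorph_iff_isCoveringMap, isLocalHomeomorph_iff_isLocalHomeomorphOn_univ]
  have h1 : IsLocalHomeomorph pr := hpr.isCoveringMap.isLocalHomeomorph
  have h2 : IsLocalHomeomorph (qq ∘ pr) := h1.comp aff.isLocalHomeomorph
  have := (h2.isLocalHomeomorphOn (s := univ)).of_comp_right h1.isLocalHomeomorphOn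
  rwa [image_univ, pr_surj.range_eq] at this

lemma qq_card (x : KB) : Nat.card (qq ⁻¹' {x}) = 3 := by
  obtain ⟨z, rfl⟩ := pr_surj x
  let f : Fin 3 → qq ⁻¹' {pr z} := fun j => ⟨pr (aff.symm ((⟨(j : ℕ), 0⟩ : KG) • z)), by
    simp only [mem_preimage, qq_pr, Homeomorph.apply_symm_apply, pr_smul, mem_singleton_iff]⟩
  have hf : Function.Bijective f := by
    constructor
    · intro i j h
      obtain ⟨g, hg⟩ := pr_eq.1 (congrArg Subtype.val h)
      have h1 := congrArg aff hg
      rw [aff_smul, Homeomorph.apply_symm_apply, Homeomorph.apply_symm_apply, ← mul_smul] at h1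
      have h2 := IsCancelSMul.right_cancel _ _ _ h1
      have h3 := congrArg KG.n h2
      have h4 := congrArg KG.k h2
      simp only [KG.mul_n, KG.mul_k, phi, add_zero] at h3 h4
      rw [h4, sgk_zero] at h3
      have := i.2
      have := j.2
      ext; omega
    · rintro ⟨y, hy⟩
      obtain ⟨w, rfl⟩ := pr_surj y
      simp only [mem_preimage, qq_pr, mem_singleton_iff] at hy
      obtain ⟨g, hg⟩ := pr_eq.1 hy
      obtain ⟨j, n', hj0, hj3, hn⟩ : ∃ j n' : ℤ, 0 ≤ j ∧ j < 3 ∧
          g.n = 3 * n' + g.k % 2 + sgk g.k * j := by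
        rcases sgk_cases g.k with h | h
        · refine ⟨(g.n - g.k % 2) % 3, (g.n - g.k % 2) / 3, by omega, by omega, ?_⟩
          rw [h]; omega
        · refine ⟨(g.k % 2 - g.n) % 3, -((g.k % 2 - g.n) / 3), by omega, by omega, ?_⟩
          rw [h]; omega
      refine ⟨⟨j.toNat, by omega⟩, Subtype.ext ?_⟩
      refine (pr_eq.2 ⟨⟨n', g.k⟩, aff.injective ?_⟩).symm
      rw [aff_smul, Homeomorph.apply_symm_apply, ← mul_smul, ← hg]
      congr 1
      refine KG.ext ?_ ?_
      · simp only [KG.mul_n, phi, Int.toNat_of_nonneg hj0, hn]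
      · simp [phi]
  rw [← Nat.card_congr (Equiv.ofBijective f hf)]
  simp

/-- The base point upstairs. -/
noncomputable def e0 : ℝ × ℝ := (-1 / 4, 0)

lemma aff_e0 : aff e0 = e0 := by
  ext
  · show 3 * (-1 / 4 : ℝ) + 1 / 2 = -1 / 4
    norm_num
  · rfl

lemma qq_base : qq (pr e0) = pr e0 := by rw [qq_pr, aff_e0]

/-- The fundamental group of the Klein bottle. -/
noncomputable def piE : FundamentalGroup KB (pr e0) ≃* KGᵐᵒᵖ :=
  hpr.fundamentalGroupEquiv ⟨e0, rfl⟩

/-- The endomorphism induced by the self-covering. -/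
noncomputable def qs : Monoid.End (FundamentalGroup KB (pr e0)) :=
  FundamentalGroup.mapOfEq qq qq_base

lemma piE_qs (γ : FundamentalGroup KB (pr e0)) : (piE (qs γ)).unop = phi (piE γ).unop := by
  have hc := hpr.isCoveringMap
  have h1 : (piE γ).unop • e0 = hc.monodromy γ ⟨e0, rfl⟩ :=
    hpr.unop_fundamentalGroupToMulOpposite_smul (e := ⟨e0, rfl⟩)
  have h2 : piE (qs γ) = MulOpposite.op (phi (piE γ).unop) := by
    refine (hpr.fundamentalGroupToMulOpposite_apply_eq_Iff (e := ⟨e0, rfl⟩)).2 ?_
    obtain ⟨Γ, hΓ⟩ := Path.Homotopic.Quotient.mk_surjective (hc.liftPathQuotient γ ⟨e0, rfl⟩)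
    obtain ⟨c, hc'⟩ := Path.Homotopic.Quotient.mk_surjective γ.toPath
    have h3 := hc.map_liftPathQuotient γ ⟨e0, rfl⟩
    have hend : phi (piE γ).unop • e0 = aff (hc.monodromy γ ⟨e0, rfl⟩) := by
      rw [← h1, aff_smul, aff_e0]
    have h4 := hc.monodromy_eq_of_map_eq (γ := qs γ) (ex := ⟨e0, rfl⟩)
      (ey := ⟨phi (piE γ).unop • e0, pr_smul _ _⟩)
      (((hc.liftPathQuotient γ ⟨e0, rfl⟩).map ⟨aff, aff.continuous⟩).cast aff_e0.symm hend) (by
        apply eq_of_heq
        have e1 : qs γ = (Path.Homotopic.Quotient.map γ qq).cast qq_base.symm qq_base.symm :=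
          FundamentalGroup.mapOfEq_apply _ _ _
        rw [e1, Path.Homotopic.Quotient.map_cast]
        refine (Path.Homotopic.Quotient.cast_heq _ _).trans ?_
        refine HEq.trans ?_ (Path.Homotopic.Quotient.cast_heq _ _).symm
        refine HEq.trans ?_ (Path.Homotopic.Quotient.cast_heq _ _).symm
        rw [← Path.Homotopic.Quotient.map_comp]
        have e2 : ((⟨pr, hc.continuous⟩ : C(ℝ × ℝ, KB)).comp ⟨aff, aff.continuous⟩) =
            qq.comp ⟨pr, hc.continuous⟩ := rfl
        have e3 := congrArg (fun q => Path.Homotopic.Quotient.map q qq) h3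
        simp only [Path.Homotopic.Quotient.map_cast] at e3
        rw [← Path.Homotopic.Quotient.map_comp] at e3
        exact (heq_of_eq e3).trans (Path.Homotopic.Quotient.cast_heq _ _))
    rw [h4]
    rfl
  rw [h2]; rfl

lemma phi_iter (j : ℕ) (g : KG) : (phi^[j] g).k = g.k ∧
    2 * (phi^[j] g).n + g.k % 2 = 3 ^ j * (2 * g.n + g.k % 2) := by
  induction j with
  | zero => simp
  | succ j ih =>
    rw [Function.iterate_succ_apply']
    refine ⟨ih.1, ?_⟩
    simp only [phi, ih.1]
    rw [pow_succ]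
    linear_combination 3 * ih.2

lemma piE_pow (j : ℕ) (γ : FundamentalGroup KB (pr e0)) :
    (piE ((qs ^ j : Monoid.End _) γ)).unop = phi^[j] (piE γ).unop := by
  induction j with
  | zero => rfl
  | succ j ih =>
    rw [pow_succ', Function.iterate_succ_apply', ← ih, ← piE_qs]
    rfl

lemma mem_stable (γ : FundamentalGroup KB (pr e0)) :
    γ ∈ stableImage qs ↔ (piE γ).unop.n = 0 ∧ (piE γ).unop.k % 2 = 0 := by
  unfold stableImage
  rw [Subgroup.mem_iInf]
  constructor
  · intro h
    have hd : ∀ j : ℕ, (3 : ℤ) ^ (j + 1) ∣ 2 * (piE γ).unop.n + (piE γ).unop.k % 2 := by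
      intro j
      obtain ⟨δ, hδ⟩ := h j
      have h1 := piE_pow (j + 1) δ
      have h2 := phi_iter (j + 1) (piE δ).unop
      have h3 : (qs ^ (j + 1) : Monoid.End _) δ = γ := hδ
      rw [h3] at h1
      rw [← h1] at h2
      rw [h2.1, h2.2]
      exact Dvd.intro _ rfl
    have h0 : 2 * (piE γ).unop.n + (piE γ).unop.k % 2 = 0 := by
      set m := 2 * (piE γ).unop.n + (piE γ).unop.k % 2
      refine Int.eq_zero_of_abs_lt_dvd (hd m.natAbs) ?_
      have : m.natAbs < 3 ^ (m.natAbs + 1) :=
        (Nat.lt_pow_self (by norm_num)).trans (Nat.pow_lt_pow_right (by norm_num) (by omega))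
      rw [← Int.natCast_natAbs]
      exact_mod_cast this
    omega
  · rintro ⟨h1, h2⟩ j
    refine ⟨γ, piE.injective (MulOpposite.unop_injective ?_)⟩
    have h3 := piE_pow (j + 1) γ
    have h4 := phi_iter (j + 1) (piE γ).unop
    refine h3.trans (KG.ext ?_ h4.1)
    have h5 := h4.2
    rw [h1, h2] at h5
    omega

lemma stable_normal : (stableImage qs).Normal := by
  constructor
  intro γ hγ δ
  rw [mem_stable] at hγ ⊢
  have hc : δ * γ = γ * δ := by
    apply piE.injective
    rw [map_mul, map_mul]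
    apply MulOpposite.unop_injective
    simp only [MulOpposite.unop_mul]
    refine KG.ext ?_ ?_
    · simp [hγ.1, sgk, hγ.2]
    · simp [add_comm]
  rw [hc, mul_inv_cancel_right]
  exact hγ

lemma stable_fp : Group.IsFinitelyPresented (stableImage qs) := by
  let f : Multiplicative ℤ →* stableImage qs :=
    { toFun := fun m => ⟨piE.symm (MulOpposite.op ⟨0, 2 * m.toAdd⟩), by
        rw [mem_stable]; simp⟩
      map_one' := by
        apply Subtype.ext
        exact piE.symm.map_one
      map_mul' := fun a b => by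
        apply Subtype.ext
        simp only [Subgroup.coe_mul, ← map_mul, ← MulOpposite.op_mul]
        congr 2
        refine KG.ext ?_ ?_
        · simp
        · simp; ring }
  refine Group.IsFinitelyPresented.equiv (MulEquiv.ofBijective f ⟨?_, ?_⟩)
  · intro a b h
    have h0 : piE.symm (MulOpposite.op ⟨0, 2 * a.toAdd⟩) =
        piE.symm (MulOpposite.op ⟨0, 2 * b.toAdd⟩) := congrArg Subtype.val h
    have h1 := congrArg KG.k (MulOpposite.op_injective (piE.symm.injective h0))
    simp only at h1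
    exact Multiplicative.toAdd.injective (by omega)
  · rintro ⟨γ, hγ⟩
    have h := (mem_stable γ).1 hγ
    refine ⟨Multiplicative.ofAdd ((piE γ).unop.k / 2), Subtype.ext ?_⟩
    show piE.symm _ = γ
    rw [MulEquiv.symm_apply_eq]
    apply MulOpposite.unop_injective
    refine KG.ext h.1.symm ?_
    simp only [MulOpposite.unop_op, toAdd_ofAdd]
    omega

theorem no_dom (Y : Type) [TopologicalSpace Y] (y : Y)
    (hY : haveI := stable_normal
      IsKPiOne (FundamentalGroup KB (pr e0) ⧸ stableImage qs) Y y) : ¬ FinitelyDominated Y := by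
  have := stable_normal
  let χ0 : FundamentalGroup KB (pr e0) →* Multiplicative (ZMod 2) :=
    { toFun := fun γ => Multiplicative.ofAdd (((piE γ).unop.k : ℤ) : ZMod 2)
      map_one' := by rw [map_one piE]; simp
      map_mul' := fun a b => by
        simp only [map_mul, MulOpposite.unop_mul, KG.mul_k, Int.cast_add, ← ofAdd_add, add_comm] }
  refine not_finitelyDominated (QuotientGroup.lift (stableImage qs) χ0 ?_)
    (QuotientGroup.mk (piE.symm (MulOpposite.op ⟨0, 1⟩))) ?_ ?_ y hY
  · intro γ hγ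
    have h := ((mem_stable γ).1 hγ).2
    show Multiplicative.ofAdd (((piE γ).unop.k : ℤ) : ZMod 2) = 1
    rw [(ZMod.intCast_zmod_eq_zero_iff_dvd _ 2).2 (Int.dvd_of_emod_eq_zero h)]
    rfl
  · rw [← QuotientGroup.mk_mul, QuotientGroup.eq_one_iff, mem_stable, map_mul piE,
      MulEquiv.apply_symm_apply]
    simp
  · simp [χ0]

end Pool.Agent.H968Z.Klein
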